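import Mathlib

set_option autoImplicit false

/-! # Complete multipartite patterns: an averaged inequality -/

namespace Pool.Agent.K4H50.SG

open Finset

/-- the configurations: `s c` elements of `A c` for every `c` -/
def Conf {d : ℕ} (s : Fin d → ℕ) (A : Fin d → Finset ℕ) : Finset (∀ c : Fin d, Fin (s c) → ℕ) :=
  Fintype.piFinset fun c => Fintype.piFinset fun _ : Fin (s c) => A c

/-- the sum of the configuration `X` with the choice `e` -/
def sg {d : ℕ} {s : Fin d → ℕ} (X : ∀ c : Fin d, Fin (s c) → ℕ) (e : ∀ c : Fin d, Fin (s c)) : ℕ :=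
  ∑ c, X c (e c)

/-- the product of the values of `f` at all sums -/
noncomputable def ev {d : ℕ} {s : Fin d → ℕ} (f : ℕ → ℝ) (X : ∀ c : Fin d, Fin (s c) → ℕ) : ℝ :=
  ∏ e : (∀ c : Fin d, Fin (s c)), f (sg X e)

/-- the sum over the configurations -/
noncomputable def Ph {d : ℕ} (s : Fin d → ℕ) (A : Fin d → Finset ℕ) (f : ℕ → ℝ) : ℝ :=
  ∑ X ∈ Conf s A, ev f X

theorem ev_mul {d : ℕ} {s : Fin d → ℕ} (f g : ℕ → ℝ) (X : ∀ c : Fin d, Fin (s c) → ℕ) :
    ev (fun v => f v * g v) X = ev f X * ev g X := by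
  unfold ev
  rw [Finset.prod_mul_distrib]

theorem ev_prod {d : ℕ} {s : Fin d → ℕ} {ι : Type} (J : Finset ι) (f : ι → ℕ → ℝ)
    (X : ∀ c : Fin d, Fin (s c) → ℕ) :
    ev (fun v => ∏ j ∈ J, f j v) X = ∏ j ∈ J, ev (f j) X := by
  unfold ev
  rw [Finset.prod_comm]

theorem ev_nonneg {d : ℕ} {s : Fin d → ℕ} {f : ℕ → ℝ} (hf : ∀ v, 0 ≤ f v)
    (X : ∀ c : Fin d, Fin (s c) → ℕ) : 0 ≤ ev f X :=
  Finset.prod_nonneg fun _ _ => hf _

theorem ev_cons {d : ℕ} {s : Fin (d + 1) → ℕ} (f : ℕ → ℝ) (x : Fin (s 0) → ℕ)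
    (X : ∀ c : Fin d, Fin (s c.succ) → ℕ) :
    ev f (Fin.cons (α := fun c => Fin (s c) → ℕ) x X) =
      ∏ i : Fin (s 0), ev (fun v => f (x i + v)) X := by
  unfold ev
  rw [← Fintype.prod_prod_type']
  apply Fintype.prod_equiv (Fin.consEquiv (fun c => Fin (s c))).symm
  intro e
  congr 1
  unfold sg
  rw [Fin.sum_univ_succ]
  rfl

theorem sum_Conf_succ {d : ℕ} (s : Fin (d + 1) → ℕ) (A : Fin (d + 1) → Finset ℕ)
    (F : (∀ c : Fin (d + 1), Fin (s c) → ℕ) → ℝ) :
    ∑ X ∈ Conf s A, F X = ∑ x ∈ Fintype.piFinset (fun _ : Fin (s 0) => A 0),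
      ∑ X ∈ Conf (fun c : Fin d => s c.succ) (fun c => A c.succ),
        F (Fin.cons (α := fun c => Fin (s c) → ℕ) x X) := by
  rw [← Finset.sum_product']
  symm
  apply Finset.sum_bij' (fun p _ => Fin.cons (α := fun c => Fin (s c) → ℕ) p.1 p.2)
    (fun X _ => (X 0, fun c : Fin d => X c.succ))
  · intro p hp
    rw [mem_product] at hp
    unfold Conf
    rw [Fintype.mem_piFinset]
    intro c
    refine Fin.cases ?_ (fun c => ?_) c
    · exact hp.1
    · have := hp.2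
      unfold Conf at this
      rw [Fintype.mem_piFinset] at this
      exact this c
  · intro X hX
    unfold Conf at hX
    rw [Fintype.mem_piFinset] at hX
    rw [mem_product]
    refine ⟨hX 0, ?_⟩
    unfold Conf
    rw [Fintype.mem_piFinset]
    exact fun c => hX c.succ
  · intro p _
    rfl
  · intro X _
    exact Fin.cons_self_tail X
  · intro p _
    rfl

/-- the sum over the configurations, grouped by the last coordinates -/
theorem Ph_succ {d : ℕ} (s : Fin (d + 1) → ℕ) (A : Fin (d + 1) → Finset ℕ) (f : ℕ → ℝ) :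
    Ph s A f = ∑ X ∈ Conf (fun c : Fin d => s c.succ) (fun c => A c.succ),
      (∑ x ∈ A 0, ev (fun v => f (x + v)) X) ^ s 0 := by
  unfold Ph
  rw [sum_Conf_succ, Finset.sum_comm]
  apply Finset.sum_congr rfl
  intro X _
  have h : (∑ x ∈ A 0, ev (fun v => f (x + v)) X) ^ s 0 =
      ∏ _i : Fin (s 0), ∑ x ∈ A 0, ev (fun v => f (x + v)) X := by
    rw [Finset.prod_const, Finset.card_univ, Fintype.card_fin]
  rw [h, Finset.prod_univ_sum]
  apply Finset.sum_congr rfl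
  intro x _
  rw [ev_cons]

theorem pow_grad {a b : ℝ} (ha : 0 ≤ a) (hb : 0 ≤ b) (r : ℕ) :
    b ^ (r + 1) + (r + 1 : ℝ) * b ^ r * (a - b) ≤ a ^ (r + 1) := by
  induction r with
  | zero => simp
  | succ r ih =>
    have h1 : a * (b ^ (r + 1) + (r + 1 : ℝ) * b ^ r * (a - b)) ≤ a * a ^ (r + 1) :=
      mul_le_mul_of_nonneg_left ih ha
    have h2 : 0 ≤ (r + 1 : ℝ) * b ^ r * (a - b) ^ 2 := by positivity
    have e1 : a * a ^ (r + 1) = a ^ (r + 1 + 1) := by ring
    have e2 : a * (b ^ (r + 1) + (r + 1 : ℝ) * b ^ r * (a - b)) =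
        b ^ (r + 1 + 1) + ((r : ℝ) + 1 + 1) * b ^ (r + 1) * (a - b) +
          (r + 1 : ℝ) * b ^ r * (a - b) ^ 2 := by ring
    push_cast
    linarith

theorem avg : ∀ (d : ℕ) (s : Fin d → ℕ) (A : Fin d → Finset ℕ) {ι : Type} (I : Finset ι)
    (f : ι → ℕ → ℝ) (g : ℕ → ℝ), (∀ n v, 0 ≤ f n v) → (∀ v, 0 ≤ g v) →
    (∀ v, (I.card : ℝ) * g v ≤ ∑ n ∈ I, f n v) →
    (I.card : ℝ) * Ph s A g ≤ ∑ n ∈ I, Ph s A (f n) := by
  intro d
  induction d with
  | zero =>
    intro s A ι I f g hf hg h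
    have e : ∀ u : ℕ → ℝ, Ph s A u = u 0 := by
      intro u
      unfold Ph Conf ev sg
      simp
    simp only [e]
    exact h 0
  | succ d ih =>
    intro s A ι I f g hf hg h
    simp only [Ph_succ]
    rcases Nat.eq_zero_or_pos (s 0) with h0 | h0
    · simp only [h0, pow_zero]
      rw [Finset.sum_const, Finset.sum_const, nsmul_eq_mul]
      simp
    obtain ⟨r, hr⟩ : ∃ r, s 0 = r + 1 := ⟨s 0 - 1, by omega⟩
    simp only [hr]
    set C := Conf (fun c : Fin d => s c.succ) (fun c => A c.succ) with hC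
    set P : ι → ℕ → (∀ c : Fin d, Fin (s c.succ) → ℕ) → ℝ :=
      fun n x X => ev (fun v => f n (x + v)) X with hP
    set Q : ℕ → (∀ c : Fin d, Fin (s c.succ) → ℕ) → ℝ :=
      fun x X => ev (fun v => g (x + v)) X with hQ
    have hP0 : ∀ n x X, 0 ≤ P n x X := fun n x X => ev_nonneg (fun v => hf n (x + v)) X
    have hQ0 : ∀ x X, 0 ≤ Q x X := fun x X => ev_nonneg (fun v => hg (x + v)) X
    -- the main inequality
    have key : 0 ≤ ∑ X ∈ C, (∑ x ∈ A 0, Q x X) ^ r *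
        (∑ n ∈ I, ∑ x ∈ A 0, P n x X - (I.card : ℝ) * ∑ x ∈ A 0, Q x X) := by
      have e1 : ∑ X ∈ C, (∑ x ∈ A 0, Q x X) ^ r *
          (∑ n ∈ I, ∑ x ∈ A 0, P n x X - (I.card : ℝ) * ∑ x ∈ A 0, Q x X) =
          ∑ Y ∈ Fintype.piFinset (fun _ : Fin r => A 0), ∑ x ∈ A 0,
            (∑ n ∈ I, Ph (fun c : Fin d => s c.succ) (fun c => A c.succ)
                (fun v => f n (x + v) * ∏ j : Fin r, g (Y j + v)) -
              (I.card : ℝ) * Ph (fun c : Fin d => s c.succ) (fun c => A c.succ)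
                (fun v => g (x + v) * ∏ j : Fin r, g (Y j + v))) := by
        have hpow : ∀ X, (∑ x ∈ A 0, Q x X) ^ r =
            ∑ Y ∈ Fintype.piFinset (fun _ : Fin r => A 0), ∏ j : Fin r, Q (Y j) X := by
          intro X
          have h9 := Finset.prod_univ_sum (fun _ : Fin r => A 0) (fun _ x => Q x X)
          rw [Finset.prod_const, Finset.card_univ, Fintype.card_fin] at h9
          exact h9
        have hPh : ∀ (u : ℕ → ℝ) (Y : Fin r → ℕ),
            Ph (fun c : Fin d => s c.succ) (fun c => A c.succ)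
              (fun v => u v * ∏ j : Fin r, g (Y j + v)) =
              ∑ X ∈ C, ev u X * ∏ j : Fin r, Q (Y j) X := by
          intro u Y
          unfold Ph
          apply Finset.sum_congr rfl
          intro X _
          rw [ev_mul, ev_prod]
        simp only [hPh]
        simp only [hpow]
        have e2 : ∀ Y ∈ Fintype.piFinset (fun _ : Fin r => A 0), ∀ x ∈ A 0,
            (∑ n ∈ I, ∑ X ∈ C, ev (fun v => f n (x + v)) X * ∏ j : Fin r, Q (Y j) X -
              (I.card : ℝ) * ∑ X ∈ C, ev (fun v => g (x + v)) X * ∏ j : Fin r, Q (Y j) X) =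
            ∑ X ∈ C, (∏ j : Fin r, Q (Y j) X) * (∑ n ∈ I, P n x X - (I.card : ℝ) * Q x X) := by
          intro Y _ x _
          rw [Finset.sum_comm, Finset.mul_sum, ← Finset.sum_sub_distrib]
          apply Finset.sum_congr rfl
          intro X _
          rw [← Finset.sum_mul]
          simp only [hP, hQ]
          ring
        rw [Finset.sum_congr rfl fun Y hY => Finset.sum_congr rfl fun x hx => e2 Y hY x hx]
        have e3 : ∀ Y ∈ Fintype.piFinset (fun _ : Fin r => A 0),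
            ∑ x ∈ A 0, ∑ X ∈ C, (∏ j : Fin r, Q (Y j) X) *
              (∑ n ∈ I, P n x X - (I.card : ℝ) * Q x X) =
            ∑ X ∈ C, (∏ j : Fin r, Q (Y j) X) *
              (∑ n ∈ I, ∑ x ∈ A 0, P n x X - (I.card : ℝ) * ∑ x ∈ A 0, Q x X) := by
          intro Y _
          rw [Finset.sum_comm]
          apply Finset.sum_congr rfl
          intro X _
          rw [← Finset.mul_sum, Finset.sum_sub_distrib, ← Finset.mul_sum, Finset.sum_comm]
        rw [Finset.sum_congr rfl fun Y hY => e3 Y hY, Finset.sum_comm]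
        apply Finset.sum_congr rfl
        intro X _
        rw [← Finset.sum_mul]
      rw [e1]
      apply Finset.sum_nonneg
      intro Y _
      apply Finset.sum_nonneg
      intro x _
      rw [sub_nonneg]
      apply ih
      · intro n v
        exact mul_nonneg (hf n _) (Finset.prod_nonneg fun _ _ => hg _)
      · intro v
        exact mul_nonneg (hg _) (Finset.prod_nonneg fun _ _ => hg _)
      · intro v
        rw [← Finset.sum_mul, ← mul_assoc]
        exact mul_le_mul_of_nonneg_right (h _) (Finset.prod_nonneg fun _ _ => hg _)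
    -- pointwise convexity
    have hpt : ∀ n ∈ I, ∀ X ∈ C, (∑ x ∈ A 0, Q x X) ^ (r + 1) + (r + 1 : ℝ) *
        (∑ x ∈ A 0, Q x X) ^ r * (∑ x ∈ A 0, P n x X - ∑ x ∈ A 0, Q x X) ≤
        (∑ x ∈ A 0, P n x X) ^ (r + 1) := fun n _ X _ =>
      pow_grad (Finset.sum_nonneg fun x _ => hP0 n x X) (Finset.sum_nonneg fun x _ => hQ0 x X) r
    have hsum : ∑ n ∈ I, ∑ X ∈ C, ((∑ x ∈ A 0, Q x X) ^ (r + 1) + (r + 1 : ℝ) *
        (∑ x ∈ A 0, Q x X) ^ r * (∑ x ∈ A 0, P n x X - ∑ x ∈ A 0, Q x X)) ≤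
        ∑ n ∈ I, ∑ X ∈ C, (∑ x ∈ A 0, P n x X) ^ (r + 1) :=
      Finset.sum_le_sum fun n hn => Finset.sum_le_sum fun X hX => hpt n hn X hX
    refine le_trans ?_ hsum
    have e4 : ∑ n ∈ I, ∑ X ∈ C, ((∑ x ∈ A 0, Q x X) ^ (r + 1) + (r + 1 : ℝ) *
        (∑ x ∈ A 0, Q x X) ^ r * (∑ x ∈ A 0, P n x X - ∑ x ∈ A 0, Q x X)) =
        (I.card : ℝ) * ∑ X ∈ C, (∑ x ∈ A 0, Q x X) ^ (r + 1) + (r + 1 : ℝ) *
          ∑ X ∈ C, (∑ x ∈ A 0, Q x X) ^ r *
            (∑ n ∈ I, ∑ x ∈ A 0, P n x X - (I.card : ℝ) * ∑ x ∈ A 0, Q x X) := by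
      rw [Finset.sum_comm, Finset.mul_sum, Finset.mul_sum, ← Finset.sum_add_distrib]
      apply Finset.sum_congr rfl
      intro X _
      rw [Finset.sum_add_distrib, Finset.sum_const, nsmul_eq_mul, ← Finset.mul_sum,
        Finset.sum_sub_distrib, Finset.sum_const, nsmul_eq_mul]
      ring
    rw [e4]
    have h5 : 0 ≤ (r + 1 : ℝ) * ∑ X ∈ C, (∑ x ∈ A 0, Q x X) ^ r *
            (∑ n ∈ I, ∑ x ∈ A 0, P n x X - (I.card : ℝ) * ∑ x ∈ A 0, Q x X) :=
      mul_nonneg (by positivity) key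
    linarith

end Pool.Agent.K4H50.SG
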