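import Mathlib
import Pool.Agent.K4H50.SG.B1

set_option autoImplicit false

/-! # Degenerate configurations are rare -/

namespace Pool.Agent.K4H50.SG

open Finset

variable {d : ℕ} {s : Fin d → ℕ}

/-- change one entry -/
def upd (c : Fin d) (i : Fin (s c)) (X : ∀ c : Fin d, Fin (s c) → ℕ) (a : ℕ) :
    ∀ c : Fin d, Fin (s c) → ℕ :=
  Function.update X c (Function.update (X c) i a)

theorem upd_self (c : Fin d) (i : Fin (s c)) (X : ∀ c : Fin d, Fin (s c) → ℕ) (a : ℕ) :
    upd c i X a c i = a := by
  simp [upd]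

theorem upd_c (c : Fin d) (i : Fin (s c)) (X : ∀ c : Fin d, Fin (s c) → ℕ) (a : ℕ)
    {j : Fin (s c)} (hj : j ≠ i) : upd c i X a c j = X c j := by
  simp [upd, Function.update_of_ne hj]

theorem upd_ne (c : Fin d) (i : Fin (s c)) (X : ∀ c : Fin d, Fin (s c) → ℕ) (a : ℕ)
    {c' : Fin d} (hc : c' ≠ c) : upd c i X a c' = X c' := by
  simp [upd, Function.update_of_ne hc]

theorem deg_pair (A : Fin d → Finset ℕ) {e e' : ∀ c : Fin d, Fin (s c)} {c : Fin d}
    (hc : e c ≠ e' c) :
    ((Conf s A).filter (fun X => sg X e = sg X e')).card * (A c).card ≤ (Conf s A).card := by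
  classical
  rw [← Finset.card_product]
  apply Finset.card_le_card_of_injOn (fun p => upd c (e c) p.1 p.2)
  · intro p hp
    rw [mem_coe, mem_product, mem_filter] at hp
    obtain ⟨⟨h1, -⟩, h2⟩ := hp
    rw [mem_coe]
    unfold Conf at h1 ⊢
    rw [Fintype.mem_piFinset] at h1 ⊢
    intro c'
    rw [Fintype.mem_piFinset]
    intro i
    change upd c (e c) p.1 p.2 c' i ∈ A c'
    by_cases h : c' = c
    · subst h
      by_cases hi : i = e c'
      · subst hi
        rw [upd_self]
        exact h2
      · rw [upd_c _ _ _ _ hi]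
        exact Fintype.mem_piFinset.1 (h1 c') i
    · rw [upd_ne _ _ _ _ h]
      exact Fintype.mem_piFinset.1 (h1 c') i
  · rintro ⟨X, a⟩ hX ⟨Y, b⟩ hY hXY
    rw [mem_coe, mem_product, mem_filter] at hX hY
    obtain ⟨⟨-, hX2⟩, -⟩ := hX
    obtain ⟨⟨-, hY2⟩, -⟩ := hY
    simp only at hXY hX2 hY2
    have hab : a = b := by
      have := congrFun (congrFun hXY c) (e c)
      rwa [upd_self, upd_self] at this
    have hother : ∀ c' : Fin d, c' ≠ c → X c' = Y c' := by
      intro c' h
      have := congrFun hXY c'
      rwa [upd_ne _ _ _ _ h, upd_ne _ _ _ _ h] at this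
    have hsame : ∀ j : Fin (s c), j ≠ e c → X c j = Y c j := by
      intro j hj
      have := congrFun (congrFun hXY c) j
      rwa [upd_c _ _ _ _ hj, upd_c _ _ _ _ hj] at this
    have he' : sg X e' = sg Y e' := by
      unfold sg
      apply Finset.sum_congr rfl
      intro c' _
      by_cases h : c' = c
      · subst h
        exact hsame _ (Ne.symm hc)
      · rw [hother c' h]
    have hee : sg X e = sg Y e := by rw [hX2, hY2, he']
    have hXe : X c (e c) = Y c (e c) := by
      unfold sg at hee
      rw [← Finset.add_sum_erase _ _ (mem_univ c), ← Finset.add_sum_erase _ _ (mem_univ c)] at hee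
      have h5 : ∑ x ∈ univ.erase c, X x (e x) = ∑ x ∈ univ.erase c, Y x (e x) := by
        apply Finset.sum_congr rfl
        intro x hx
        rw [hother x (ne_of_mem_erase hx)]
      omega
    have hXY' : X = Y := by
      funext c'
      by_cases h : c' = c
      · subst h
        funext j
        by_cases hj : j = e c'
        · rw [hj]; exact hXe
        · exact hsame j hj
      · exact hother c' h
    rw [hXY', hab]

/-- the number of configurations whose sums are not distinct -/
theorem deg_card (A : Fin d → Finset ℕ) {m : ℕ} (hm : ∀ c, m ≤ (A c).card)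
    [DecidablePred fun X : (∀ c : Fin d, Fin (s c) → ℕ) => ¬ Function.Injective (sg X)] :
    ((Conf s A).filter (fun X => ¬ Function.Injective (sg X))).card * m ≤
      (∏ c, s c) ^ 2 * (Conf s A).card := by
  classical
  set E := Finset.univ (α := ∀ c : Fin d, Fin (s c)) with hE
  have hEc : E.card = ∏ c, s c := by
    rw [hE, Finset.card_univ, Fintype.card_pi]
    simp
  have hsub : (Conf s A).filter (fun X => ¬ Function.Injective (sg X)) ⊆
      ((E ×ˢ E).filter (fun p => p.1 ≠ p.2)).biUnion
        (fun p => (Conf s A).filter (fun X => sg X p.1 = sg X p.2)) := by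
    intro X hX
    rw [mem_filter] at hX
    obtain ⟨h1, h2⟩ := hX
    unfold Function.Injective at h2
    push Not at h2
    obtain ⟨e, e', h3, h4⟩ := h2
    rw [mem_biUnion]
    exact ⟨(e, e'), mem_filter.2 ⟨mem_product.2 ⟨mem_univ _, mem_univ _⟩, h4⟩,
      mem_filter.2 ⟨h1, h3⟩⟩
  calc ((Conf s A).filter (fun X => ¬ Function.Injective (sg X))).card * m
      ≤ (∑ p ∈ (E ×ˢ E).filter (fun p => p.1 ≠ p.2),
        ((Conf s A).filter (fun X => sg X p.1 = sg X p.2)).card) * m :=
        Nat.mul_le_mul_right _ ((card_le_card hsub).trans card_biUnion_le)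
    _ = ∑ p ∈ (E ×ˢ E).filter (fun p => p.1 ≠ p.2),
        ((Conf s A).filter (fun X => sg X p.1 = sg X p.2)).card * m := by rw [Finset.sum_mul]
    _ ≤ ∑ _p ∈ (E ×ˢ E).filter (fun p => p.1 ≠ p.2), (Conf s A).card := by
        apply Finset.sum_le_sum
        intro p hp
        rw [mem_filter] at hp
        obtain ⟨c, hc⟩ := Function.ne_iff.1 hp.2
        exact (Nat.mul_le_mul_left _ (hm c)).trans (deg_pair A hc)
    _ ≤ (∏ c, s c) ^ 2 * (Conf s A).card := by
        rw [Finset.sum_const, smul_eq_mul]
        apply Nat.mul_le_mul_right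
        refine (card_filter_le _ _).trans ?_
        rw [card_product, hEc, sq]

end Pool.Agent.K4H50.SG
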