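import Pool.Agent.K4H50.SG.B2
import Pool.Agent.H387R2.U8

set_option autoImplicit false

/-! # The main inequality for complete multipartite sum patterns -/

namespace Pool.Agent.K4H50.SG

open Finset Filter Topology Pool.Agent.H387R2 Pool.Agent.H387R2.Uni

variable {d : ℕ} {s : Fin d → ℕ}

/-- the set of sums -/
def DD (X : ∀ c : Fin d, Fin (s c) → ℕ) : Finset ℕ := univ.image (sg X)

theorem sg_mem (X : ∀ c : Fin d, Fin (s c) → ℕ) (e : ∀ c : Fin d, Fin (s c)) : sg X e ∈ DD X :=
  mem_image_of_mem _ (mem_univ e)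

theorem ev_ind (P : ℕ → Prop) [DecidablePred P] (X : ∀ c : Fin d, Fin (s c) → ℕ) :
    ev (fun v => if P v then (1:ℝ) else 0) X = if (∀ t ∈ DD X, P t) then 1 else 0 := by
  unfold ev
  by_cases h : ∀ t ∈ DD X, P t
  · rw [if_pos h]
    apply prod_eq_one
    intro e _
    exact if_pos (h _ (sg_mem X e))
  · rw [if_neg h]
    push Not at h
    obtain ⟨t, ht, hP⟩ := h
    obtain ⟨e, _, rfl⟩ := mem_image.1 ht
    exact prod_eq_zero (mem_univ e) (if_neg hP)

theorem ev_const_mul (a : ℝ) (f : ℕ → ℝ) (X : ∀ c : Fin d, Fin (s c) → ℕ) :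
    ev (fun v => a * f v) X = a ^ (∏ c, s c) * ev f X := by
  unfold ev
  rw [Finset.prod_mul_distrib, Finset.prod_const, Finset.card_univ, Fintype.card_pi]
  simp

variable {k : ℕ} {C δ : ℝ} {q N M y : ℕ}

theorem main_ineq (hP : Par k C δ q N M y) (hδ : 0 < δ) (hδ1 : δ ≤ 1 / 4) (A : Fin d → Finset ℕ)
    (hA : ∀ X ∈ Conf s A, ∀ t ∈ DD X, t ≤ M) :
    (1 - 2 * δ) * (N / WW y) * ((c1 δ * (WW y / (Nat.totient (WW y) * Real.log N))) ^ (∏ c, s c) *
      ∑ X ∈ Conf s A, (gT (WW y) (DD X) : ℝ)) ≤ ∑ X ∈ Conf s A, (cnt k (N - M) (DD X) : ℝ) := by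
  classical
  set W := WW y with hWdef
  have hW : 0 < W := WW_pos y
  have hW0 : (0:ℝ) < W := by exact_mod_cast hW
  have hL : 0 < Real.log N := by linarith [hP.hL]
  have hφ0 : (0:ℝ) < Nat.totient W := by exact_mod_cast Nat.totient_pos.2 hW
  have hc1 : 0 < c1 δ := div_pos (by linarith) (by linarith)
  set a : ℝ := c1 δ * (W / (Nat.totient W * Real.log N)) with ha
  have ha0 : 0 ≤ a := by rw [ha]; positivity
  set S := ∏ c, s c with hS
  set f : ℕ → ℕ → ℝ := fun n v => if (n + v).Prime then (1:ℝ) else 0 with hf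
  set g : ℕ → ℕ → ℝ := fun b v => a * (if (v ≤ M ∧ Nat.Coprime W (b + v)) then (1:ℝ) else 0) with hg
  -- one class
  have h1 : ∀ b ∈ range W, (1 - 2 * δ) * (N / W) * Ph s A (g b) ≤
      ∑ n ∈ (Ioc (k + 1) (N - M)).filter (fun n => n ≡ b [MOD W]), Ph s A (f n) := by
    intro b _
    have hf0 : ∀ n v, 0 ≤ f n v := by
      intro n v
      simp only [hf]
      split_ifs <;> norm_num
    have hg0 : ∀ v, 0 ≤ g b v := by
      intro v
      simp only [hg]
      apply mul_nonneg ha0
      split_ifs <;> norm_num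
    have hfg : ∀ v, (((Ioc (k + 1) (N - M)).filter (fun n => n ≡ b [MOD W])).card : ℝ) * g b v ≤
        ∑ n ∈ (Ioc (k + 1) (N - M)).filter (fun n => n ≡ b [MOD W]), f n v := by
      intro v
      by_cases hv : v ≤ M ∧ Nat.Coprime W (b + v)
      · have e0 : g b v = a := by
          simp only [hg]
          rw [if_pos hv, mul_one]
        have h3 := class_lower hP hδ hv.1 hv.2
        have h4 := size_upper hP b
        rw [← hWdef] at h3 h4
        have h5 : ∑ n ∈ (Ioc (k + 1) (N - M)).filter (fun n => n ≡ b [MOD W]), f n v =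
            (((Ioc (k + 1) (N - M)).filter (fun n => n ≡ b [MOD W] ∧ (n + v).Prime)).card : ℝ) := by
          simp only [hf]
          rw [← filter_filter, card_filter (fun n => (n + v).Prime)]
          push_cast
          rfl
        rw [h5, e0]
        refine le_trans ?_ h3
        refine (mul_le_mul_of_nonneg_right h4 ha0).trans (le_of_eq ?_)
        rw [ha]
        unfold c1
        have : 1 + δ ≠ 0 := by linarith
        field_simp
      · have e0 : g b v = 0 := by
          simp only [hg]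
          rw [if_neg hv, mul_zero]
        rw [e0, mul_zero]
        exact sum_nonneg fun n _ => hf0 n v
    have h2 := avg d s A ((Ioc (k + 1) (N - M)).filter (fun n => n ≡ b [MOD W])) f (g b)
      hf0 hg0 hfg
    refine le_trans ?_ h2
    apply mul_le_mul_of_nonneg_right (size_lower hP b)
    exact sum_nonneg fun X _ => ev_nonneg hg0 X
  -- sum over the classes
  have s1 : ∑ b ∈ range W, ∑ n ∈ (Ioc (k + 1) (N - M)).filter (fun n => n ≡ b [MOD W]), Ph s A (f n) =
      ∑ n ∈ Ioc (k + 1) (N - M), Ph s A (f n) := by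
    rw [← sum_fiberwise_of_maps_to (s := Ioc (k + 1) (N - M)) (t := range W) (g := fun n => n % W)
      (fun n _ => mem_range.2 (Nat.mod_lt _ hW))]
    apply sum_congr rfl
    intro b hb
    apply sum_congr _ fun _ _ => rfl
    apply filter_congr
    intro n _
    rw [Nat.ModEq, Nat.mod_eq_of_lt (mem_range.1 hb)]
  have s2 : ∑ n ∈ Ioc (k + 1) (N - M), Ph s A (f n) = ∑ X ∈ Conf s A, (cnt k (N - M) (DD X) : ℝ) := by
    unfold Ph
    rw [sum_comm]
    apply sum_congr rfl
    intro X _
    unfold cnt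
    rw [card_filter]
    push_cast
    apply sum_congr rfl
    intro n _
    simp only [hf]
    exact ev_ind (fun v => (n + v).Prime) X
  have s3 : ∑ b ∈ range W, Ph s A (g b) = a ^ S * ∑ X ∈ Conf s A, (gT W (DD X) : ℝ) := by
    unfold Ph
    rw [sum_comm, mul_sum]
    apply sum_congr rfl
    intro X hX
    unfold gT
    rw [card_filter]
    push_cast
    rw [mul_sum]
    apply sum_congr rfl
    intro b _
    simp only [hg]
    rw [ev_const_mul, ev_ind (fun v => v ≤ M ∧ Nat.Coprime W (b + v)) X]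
    congr 1
    have : (∀ t ∈ DD X, t ≤ M ∧ Nat.Coprime W (b + t)) ↔ ∀ t ∈ DD X, Nat.Coprime W (b + t) :=
      ⟨fun h t ht => (h t ht).2, fun h t ht => ⟨hA X hX t ht, h t ht⟩⟩
    simp only [this]
  rw [← s3, ← s2, ← s1, mul_sum]
  exact sum_le_sum h1

/-- the mean value of the truncated singular series is at least one -/
theorem sing_mean (A : Fin d → Finset ℕ) (y : ℕ) :
    ((Conf s A).card : ℝ) ≤ ∑ X ∈ Conf s A,
      ((WW y : ℝ) / Nat.totient (WW y)) ^ (∏ c, s c) * (gT (WW y) (DD X) / WW y) := by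
  classical
  set W := WW y with hWdef
  have hW : 0 < W := WW_pos y
  have hW0 : (0:ℝ) < W := by exact_mod_cast hW
  have hφ0 : (0:ℝ) < Nat.totient W := by exact_mod_cast Nat.totient_pos.2 hW
  set a : ℝ := (W : ℝ) / Nat.totient W with ha
  have ha0 : 0 ≤ a := by rw [ha]; positivity
  set S := ∏ c, s c with hS
  set f : ℕ → ℕ → ℝ := fun b v => a * (if Nat.Coprime W (b + v) then (1:ℝ) else 0) with hf
  have hf0 : ∀ n v, 0 ≤ f n v := by
    intro n v
    simp only [hf]
    split_ifs <;> simp [ha0]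
  have h1 := avg d s A (range W) f (fun _ => 1) hf0 (fun _ => zero_le_one) (fun v => by
    simp only [hf]
    rw [← mul_sum, mul_one, card_range]
    have h2 : ∑ b ∈ range W, (if Nat.Coprime W (b + v) then (1:ℝ) else 0) = Nat.totient W := by
      have h3 : (((range W).filter (fun b => Nat.Coprime W (b + v))).card : ℝ) = Nat.totient W := by
        rw [shift_card W v W (fun x => W.Coprime x), Nat.filter_coprime_Ico_eq_totient W v]
      rw [← h3, card_filter]
      push_cast
      rfl
    rw [h2, ha]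
    rw [div_mul_cancel₀ _ hφ0.ne'])
  have h4 : Ph s A (fun _ => (1:ℝ)) = (Conf s A).card := by
    unfold Ph ev
    simp
  rw [h4, card_range] at h1
  have s3 : ∑ b ∈ range W, Ph s A (f b) = a ^ S * ∑ X ∈ Conf s A, (gT W (DD X) : ℝ) := by
    unfold Ph
    rw [sum_comm, mul_sum]
    apply sum_congr rfl
    intro X hX
    unfold gT
    rw [card_filter]
    push_cast
    rw [mul_sum]
    apply sum_congr rfl
    intro b _
    simp only [hf]
    rw [ev_const_mul, ev_ind (fun v => Nat.Coprime W (b + v)) X]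
  rw [s3] at h1
  rw [← mul_sum, ← sum_div, mul_div_assoc', le_div_iff₀ hW0, mul_comm]
  exact h1

/-- a single pattern -/
theorem gT_le (y : ℕ) {T : Finset ℕ} (hT : T.Nonempty) : gT (WW y) T ≤ Nat.totient (WW y) := by
  classical
  obtain ⟨v, hv⟩ := hT
  have h3 : ((range (WW y)).filter (fun b => Nat.Coprime (WW y) (b + v))).card = Nat.totient (WW y) := by
    rw [shift_card (WW y) v (WW y) (fun x => (WW y).Coprime x), Nat.filter_coprime_Ico_eq_totient (WW y) v]
  rw [← h3]
  unfold gT
  apply card_le_card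
  intro b hb
  rw [mem_filter] at hb ⊢
  exact ⟨hb.1, hb.2 v hv⟩

end Pool.Agent.K4H50.SG
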