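import Pool.Agent.K4H50.SG.B3

set_option autoImplicit false

/-! # Coincidences among the sums of a configuration -/

namespace Pool.Agent.K4H50.SG

open Finset

variable {d : ℕ} {s : Fin d → ℕ}

/-- the coincidences among the sums -/
def Rel (X : ∀ c : Fin d, Fin (s c) → ℕ) :
    Finset ((∀ c : Fin d, Fin (s c)) × (∀ c : Fin d, Fin (s c))) :=
  univ.filter fun p => sg X p.1 = sg X p.2

theorem mem_Rel (X : ∀ c : Fin d, Fin (s c) → ℕ) (e e' : ∀ c : Fin d, Fin (s c)) :
    (e, e') ∈ Rel X ↔ sg X e = sg X e' := by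
  unfold Rel
  rw [mem_filter]
  simp

/-- the solutions of a system of coincidences -/
def VR (R : Finset ((∀ c : Fin d, Fin (s c)) × (∀ c : Fin d, Fin (s c)))) :
    Submodule ℚ ((Σ c : Fin d, Fin (s c)) → ℚ) where
  carrier := {x | ∀ p ∈ R, ∑ c, x ⟨c, p.1 c⟩ = ∑ c, x ⟨c, p.2 c⟩}
  add_mem' := by
    intro x y hx hy p hp
    simp only [Pi.add_apply, Finset.sum_add_distrib]
    rw [hx p hp, hy p hp]
  zero_mem' := by
    intro p _
    simp
  smul_mem' := by
    intro a x hx p hp
    simp only [Pi.smul_apply, smul_eq_mul, ← Finset.mul_sum]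
    rw [hx p hp]

theorem mem_VR {R : Finset ((∀ c : Fin d, Fin (s c)) × (∀ c : Fin d, Fin (s c)))}
    {x : (Σ c : Fin d, Fin (s c)) → ℚ} :
    x ∈ VR R ↔ ∀ p ∈ R, ∑ c, x ⟨c, p.1 c⟩ = ∑ c, x ⟨c, p.2 c⟩ := Iff.rfl

theorem cast_mem_VR (X : ∀ c : Fin d, Fin (s c) → ℕ) :
    (fun i : Σ c : Fin d, Fin (s c) => (X i.1 i.2 : ℚ)) ∈ VR (Rel X) := by
  rw [mem_VR]
  rintro ⟨e, e'⟩ hp
  rw [mem_Rel] at hp
  unfold sg at hp
  simp only
  exact_mod_cast hp

theorem rank_lemma (R : Finset ((∀ c : Fin d, Fin (s c)) × (∀ c : Fin d, Fin (s c)))) :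
    ∃ B : ∀ c : Fin d, Finset (Fin (s c)),
      (∀ X Y : (∀ c : Fin d, Fin (s c) → ℕ), Rel X = R → Rel Y = R →
        (∀ c, ∀ i ∈ B c, X c i = Y c i) → X = Y) ∧
      (∀ X : (∀ c : Fin d, Fin (s c) → ℕ), Rel X = R → ∀ e e' : (∀ c : Fin d, Fin (s c)),
        (∀ c, e c ∈ B c) → (∀ c, e' c ∈ B c) → sg X e = sg X e' → e = e') := by
  classical
  set ph : (Σ c : Fin d, Fin (s c)) → Module.Dual ℚ (VR R) :=
    fun i => (LinearMap.proj (φ := fun _ => ℚ) i).comp (VR R).subtype with hph
  have hph' : ∀ i (z : VR R), ph i z = (z : (Σ c : Fin d, Fin (s c)) → ℚ) i := fun i z => rfl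
  obtain ⟨κ, a, hinj, hspan, hli⟩ := exists_linearIndependent' ℚ ph
  refine ⟨fun c => univ.filter fun i => ∃ j, a j = ⟨c, i⟩, ?_, ?_⟩
  · intro X Y hX hY h
    have hx : (fun i : Σ c : Fin d, Fin (s c) => (X i.1 i.2 : ℚ)) ∈ VR R := by
      rw [← hX]; exact cast_mem_VR X
    have hy : (fun i : Σ c : Fin d, Fin (s c) => (Y i.1 i.2 : ℚ)) ∈ VR R := by
      rw [← hY]; exact cast_mem_VR Y
    set z : VR R := ⟨_, hx⟩ - ⟨_, hy⟩ with hz
    have hzi : ∀ i, (z : (Σ c : Fin d, Fin (s c)) → ℚ) i = X i.1 i.2 - Y i.1 i.2 := fun i => rfl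
    have h1 : ∀ ψ ∈ Submodule.span ℚ (Set.range (ph ∘ a)), ψ z = 0 := by
      intro ψ hψ
      induction hψ using Submodule.span_induction with
      | mem ψ hψ =>
        obtain ⟨j, rfl⟩ := hψ
        simp only [Function.comp]
        rw [hph', hzi]
        have h2 := h (a j).1 (a j).2 (mem_filter.2 ⟨mem_univ _, j, rfl⟩)
        rw [h2, sub_self]
      | zero => simp
      | add u v _ _ hu hv => rw [LinearMap.add_apply, hu, hv, add_zero]
      | smul r u _ hu => rw [LinearMap.smul_apply, hu, smul_zero]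
    rw [hspan] at h1
    funext c i
    have h2 := h1 (ph ⟨c, i⟩) (Submodule.subset_span (Set.mem_range_self _))
    rw [hph', hzi] at h2
    have h3 : (X c i : ℚ) = Y c i := sub_eq_zero.1 h2
    exact_mod_cast h3
  · intro X hX e e' he he' hee
    have hR : (e, e') ∈ R := by
      rw [← hX, mem_Rel]; exact hee
    have h1 : ∀ c, ∃ j, a j = ⟨c, e c⟩ := fun c => (mem_filter.1 (he c)).2
    have h2 : ∀ c, ∃ j, a j = ⟨c, e' c⟩ := fun c => (mem_filter.1 (he' c)).2
    choose j hj using h1
    choose j' hj' using h2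
    rw [linearIndependent_iff] at hli
    set l : κ →₀ ℚ := ∑ c, Finsupp.single (j c) (1:ℚ) - ∑ c, Finsupp.single (j' c) (1:ℚ) with hl
    have h3 : Finsupp.linearCombination ℚ (ph ∘ a) l = 0 := by
      rw [hl, map_sub, map_sum, map_sum]
      simp only [Finsupp.linearCombination_single, one_smul, Function.comp, hj, hj']
      apply LinearMap.ext
      intro z
      rw [LinearMap.sub_apply, LinearMap.sum_apply, LinearMap.sum_apply]
      simp only [hph']
      rw [LinearMap.zero_apply, sub_eq_zero]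
      exact (mem_VR.1 z.2) (e, e') hR
    have h4 := hli l h3
    by_contra hne
    obtain ⟨c0, hc0⟩ := Function.ne_iff.1 hne
    have h5 : l (j c0) = 0 := by rw [h4]; rfl
    rw [hl, Finsupp.sub_apply, Finsupp.finset_sum_apply, Finsupp.finset_sum_apply] at h5
    have h6 : ∑ c, (Finsupp.single (j c) (1:ℚ)) (j c0) = 1 := by
      rw [Finset.sum_eq_single c0]
      · simp
      · intro c _ hc
        rw [Finsupp.single_apply, if_neg]
        intro h
        have := hj c
        rw [h, hj c0] at this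
        exact hc (Sigma.mk.inj_iff.1 this).1.symm
      · intro h; exact absurd (mem_univ _) h
    have h7 : ∑ c, (Finsupp.single (j' c) (1:ℚ)) (j c0) = 0 := by
      apply Finset.sum_eq_zero
      intro c _
      rw [Finsupp.single_apply, if_neg]
      intro h
      have := hj' c
      rw [h, hj c0] at this
      obtain ⟨h8, h9⟩ := Sigma.mk.inj_iff.1 this
      subst h8
      exact hc0 (eq_of_heq h9)
    rw [h6, h7] at h5
    norm_num at h5

theorem rank_count (A : Fin d → Finset ℕ)
    (R : Finset ((∀ c : Fin d, Fin (s c)) × (∀ c : Fin d, Fin (s c)))) :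
    ∃ b : Fin d → ℕ, (∀ c, b c ≤ s c) ∧
      ((Conf s A).filter (fun X => Rel X = R)).card ≤ ∏ c, (A c).card ^ b c ∧
      ∀ X : (∀ c : Fin d, Fin (s c) → ℕ), Rel X = R → ∏ c, b c ≤ (DD X).card := by
  classical
  obtain ⟨B, h1, h2⟩ := rank_lemma R
  refine ⟨fun c => (B c).card, ?_, ?_, ?_⟩
  · intro c
    have := card_le_univ (B c)
    rwa [Fintype.card_fin] at this
  · have h3 : (Fintype.piFinset fun c : Fin d =>
        Fintype.piFinset fun _ : {i // i ∈ B c} => A c).card = ∏ c, (A c).card ^ (B c).card := by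
      rw [Fintype.card_piFinset]
      apply prod_congr rfl
      intro c _
      rw [Fintype.card_piFinset, prod_const, card_univ, Fintype.card_coe]
    rw [← h3]
    apply card_le_card_of_injOn (fun X c i => X c i.1)
    · intro X hX
      rw [mem_coe, mem_filter] at hX
      obtain ⟨h4, -⟩ := hX
      unfold Conf at h4
      rw [Fintype.mem_piFinset] at h4
      rw [mem_coe, Fintype.mem_piFinset]
      intro c
      rw [Fintype.mem_piFinset]
      intro i
      exact Fintype.mem_piFinset.1 (h4 c) i.1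
    · intro X hX Y hY hXY
      rw [mem_coe, mem_filter] at hX hY
      apply h1 X Y hX.2 hY.2
      intro c i hi
      exact congrFun (congrFun hXY c) ⟨i, hi⟩
  · intro X hX
    rw [← Fintype.card_piFinset]
    apply card_le_card_of_injOn (sg X)
    · intro e _
      rw [mem_coe]
      exact sg_mem X e
    · intro e he e' he' h
      rw [mem_coe, Fintype.mem_piFinset] at he he'
      exact h2 X hX e e' he he' h

end Pool.Agent.K4H50.SG
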