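import Pool.Agent.K4H50.SG.B4
import Pool.Agent.H362R2.QT.CTS
import Pool.Agent.W218.TX.Up

set_option autoImplicit false

/-! # The contribution of degenerate configurations -/

namespace Pool.Agent.K4H50.SG

open Finset Filter Topology Pool.Agent.H387R2

variable {d : ℕ} {s : Fin d → ℕ}

theorem card_Conf (A : Fin d → Finset ℕ) : (Conf s A).card = ∏ c, (A c).card ^ s c := by
  unfold Conf
  rw [Fintype.card_piFinset]
  apply prod_congr rfl
  intro c _
  rw [Fintype.card_piFinset, prod_const, card_univ, Fintype.card_fin]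

/-- the exponent inequality -/
theorem expo (hs : ∀ c, 1 ≤ s c) (b : Fin d → ℕ) (hb : ∀ c, b c ≤ s c) :
    ((∏ c, s c : ℕ) : ℝ) - ((∏ c, b c : ℕ) : ℝ) ≤
      ∑ c, ((∏ c' ∈ univ.erase c, s c' : ℕ) : ℝ) * ((s c : ℝ) - b c) := by
  have hs0 : ∀ c, (0:ℝ) < s c := fun c => by exact_mod_cast hs c
  have hb1 : ∀ c, (b c : ℝ) ≤ s c := fun c => by exact_mod_cast hb c
  have h1 := MB.one_sub_sum_le (univ : Finset (Fin d)) (fun c => ((s c : ℝ) - b c) / s c)
    (fun c _ => div_nonneg (by linarith [hb1 c]) (hs0 c).le)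
    (fun c _ => by
      rw [div_le_one (hs0 c)]
      have : (0:ℝ) ≤ b c := Nat.cast_nonneg _
      linarith)
  have hS0 : (0:ℝ) < ((∏ c, s c : ℕ) : ℝ) := by
    push_cast
    exact prod_pos fun c _ => hs0 c
  have h2 := mul_le_mul_of_nonneg_left h1 hS0.le
  have e1 : ((∏ c, s c : ℕ) : ℝ) * ∏ c, (1 - ((s c : ℝ) - b c) / s c) = ((∏ c, b c : ℕ) : ℝ) := by
    push_cast
    rw [← prod_mul_distrib]
    apply prod_congr rfl
    intro c _
    have := (hs0 c).ne'
    field_simp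
    ring
  have e2 : ((∏ c, s c : ℕ) : ℝ) * ∑ c, ((s c : ℝ) - b c) / s c =
      ∑ c, ((∏ c' ∈ univ.erase c, s c' : ℕ) : ℝ) * ((s c : ℝ) - b c) := by
    rw [mul_sum]
    apply sum_congr rfl
    intro c _
    have h3 : ((∏ c, s c : ℕ) : ℝ) = s c * ((∏ c' ∈ univ.erase c, s c' : ℕ) : ℝ) := by
      rw [← Finset.mul_prod_erase univ s (mem_univ c)]
      push_cast
      rfl
    rw [h3]
    have := (hs0 c).ne'
    field_simp
  rw [e1, mul_sub, e2, mul_one] at h2
  linarith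

theorem ratio_le (hs : ∀ c, 1 ≤ s c) {L δ : ℝ} (hL : 1 ≤ L) (hδ : 0 < δ) (A : Fin d → Finset ℕ)
    (hA : ∀ c, L ^ (((∏ c' ∈ univ.erase c, s c' : ℕ) : ℝ) + δ) ≤ (A c).card)
    (b : Fin d → ℕ) (hb : ∀ c, b c ≤ s c) (hne : ∏ c, b c ≠ ∏ c, s c) :
    ((∏ c, (A c).card ^ b c : ℕ) : ℝ) / L ^ (∏ c, b c) ≤
      (Conf s A).card / L ^ (((∏ c, s c : ℕ) : ℝ) + δ) := by
  have hL0 : 0 < L := by linarith
  have hb1 : ∀ c, (b c : ℝ) ≤ s c := fun c => by exact_mod_cast hb c
  rw [div_le_div_iff₀ (by positivity) (by positivity), card_Conf]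
  have e1 : ((∏ c, (A c).card ^ s c : ℕ) : ℝ) =
      ((∏ c, (A c).card ^ b c : ℕ) : ℝ) * ∏ c, ((A c).card : ℝ) ^ (s c - b c) := by
    push_cast
    rw [← prod_mul_distrib]
    apply prod_congr rfl
    intro c _
    rw [← pow_add]
    congr 1
    have := hb c
    omega
  have h1 : L ^ (∑ c, (((∏ c' ∈ univ.erase c, s c' : ℕ) : ℝ) + δ) * ((s c : ℝ) - b c)) ≤
      ∏ c, ((A c).card : ℝ) ^ (s c - b c) := by
    rw [Real.rpow_sum_of_pos hL0]
    apply Finset.prod_le_prod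
    · intro c _
      positivity
    · intro c _
      rw [Real.rpow_mul hL0.le]
      have h2 : ((s c : ℝ) - b c) = ((s c - b c : ℕ) : ℝ) := by
        rw [Nat.cast_sub (hb c)]
      rw [h2, Real.rpow_natCast]
      exact pow_le_pow_left₀ (by positivity) (hA c) _
  have h3 : ∃ c, b c ≠ s c := by
    by_contra h
    push Not at h
    exact hne (prod_congr rfl fun c _ => h c)
  obtain ⟨c0, hc0⟩ := h3
  have h4 : (1:ℝ) ≤ ∑ c, ((s c : ℝ) - b c) := by
    have h5 : (1:ℝ) ≤ (s c0 : ℝ) - b c0 := by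
      have h6 : b c0 + 1 ≤ s c0 := by
        have := hb c0
        omega
      have h7 : (b c0 : ℝ) + 1 ≤ s c0 := by exact_mod_cast h6
      linarith
    refine h5.trans ?_
    exact single_le_sum (f := fun c => (s c : ℝ) - b c) (fun c _ => by linarith [hb1 c]) (mem_univ c0)
  have h5 : ((∏ c, s c : ℕ) : ℝ) + δ ≤ ((∏ c, b c : ℕ) : ℝ) +
      ∑ c, (((∏ c' ∈ univ.erase c, s c' : ℕ) : ℝ) + δ) * ((s c : ℝ) - b c) := by
    have h6 := expo hs b hb
    have e3 : ∑ c, (((∏ c' ∈ univ.erase c, s c' : ℕ) : ℝ) + δ) * ((s c : ℝ) - b c) =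
        ∑ c, ((∏ c' ∈ univ.erase c, s c' : ℕ) : ℝ) * ((s c : ℝ) - b c) +
          δ * ∑ c, ((s c : ℝ) - b c) := by
      rw [mul_sum, ← sum_add_distrib]
      apply sum_congr rfl
      intro c _
      ring
    rw [e3]
    have h7 : δ * 1 ≤ δ * ∑ c, ((s c : ℝ) - b c) := mul_le_mul_of_nonneg_left h4 hδ.le
    linarith
  have h6 : L ^ (((∏ c, s c : ℕ) : ℝ) + δ) ≤ L ^ (∏ c, b c) *
      L ^ (∑ c, (((∏ c' ∈ univ.erase c, s c' : ℕ) : ℝ) + δ) * ((s c : ℝ) - b c)) := by
    rw [← Real.rpow_natCast L (∏ c, b c), ← Real.rpow_add hL0]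
    exact Real.rpow_le_rpow_of_exponent_le hL h5
  rw [e1]
  calc ((∏ c, (A c).card ^ b c : ℕ) : ℝ) * L ^ (((∏ c, s c : ℕ) : ℝ) + δ)
      ≤ ((∏ c, (A c).card ^ b c : ℕ) : ℝ) * (L ^ (∏ c, b c) *
      L ^ (∑ c, (((∏ c' ∈ univ.erase c, s c' : ℕ) : ℝ) + δ) * ((s c : ℝ) - b c))) :=
        mul_le_mul_of_nonneg_left h6 (Nat.cast_nonneg _)
    _ ≤ ((∏ c, (A c).card ^ b c : ℕ) : ℝ) * (L ^ (∏ c, b c) *
      ∏ c, ((A c).card : ℝ) ^ (s c - b c)) := by
        apply mul_le_mul_of_nonneg_left _ (Nat.cast_nonneg _)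
        exact mul_le_mul_of_nonneg_left h1 (by positivity)
    _ = _ := by ring

theorem deg_sum (hs : ∀ c, 1 ≤ s c) {L δ K : ℝ} (hL : 1 ≤ L) (hδ : 0 < δ) (hK : 0 ≤ K)
    (A : Fin d → Finset ℕ)
    (hA : ∀ c, L ^ (((∏ c' ∈ univ.erase c, s c' : ℕ) : ℝ) + δ) ≤ (A c).card)
    (F : Finset ℕ → ℝ)
    (hF : ∀ X ∈ Conf s A, (DD X).card ≠ ∏ c, s c → F (DD X) ≤ K / L ^ (DD X).card) :
    ∑ X ∈ (Conf s A).filter (fun X => (DD X).card ≠ ∏ c, s c), F (DD X) ≤
      (2:ℝ) ^ ((∏ c, s c) ^ 2) * (K * ((Conf s A).card / L ^ (((∏ c, s c : ℕ) : ℝ) + δ))) := by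
  classical
  have hL0 : 0 < L := by linarith
  have hcardE : Fintype.card (∀ c : Fin d, Fin (s c)) = ∏ c, s c := by
    rw [Fintype.card_pi]
    simp
  have hle : ∀ X : (∀ c : Fin d, Fin (s c) → ℕ), (DD X).card ≤ ∏ c, s c := by
    intro X
    rw [← hcardE]
    exact card_image_le.trans (le_of_eq card_univ)
  rw [← sum_fiberwise_of_maps_to (t := (univ : Finset (Finset ((∀ c : Fin d, Fin (s c)) × (∀ c : Fin d, Fin (s c)))))) (g := fun X => Rel X)
    (fun X _ => mem_univ _)]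
  have hpt : ∀ R ∈ (univ : Finset (Finset ((∀ c : Fin d, Fin (s c)) × (∀ c : Fin d, Fin (s c))))),
      ∑ X ∈ ((Conf s A).filter (fun X => (DD X).card ≠ ∏ c, s c)).filter (fun X => Rel X = R), F (DD X) ≤
      K * ((Conf s A).card / L ^ (((∏ c, s c : ℕ) : ℝ) + δ)) := by
    intro R _
    rcases (((Conf s A).filter (fun X => (DD X).card ≠ ∏ c, s c)).filter
      (fun X => Rel X = R)).eq_empty_or_nonempty with h0 | ⟨X0, hX0⟩
    · rw [h0, sum_empty]
      positivity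
    · obtain ⟨b, hb, hcard, hlow⟩ := rank_count A R
      rw [mem_filter, mem_filter] at hX0
      have hne : ∏ c, b c ≠ ∏ c, s c := by
        have h1 := hlow X0 hX0.2
        have h2 := hle X0
        have h3 := hX0.1.2
        omega
      calc ∑ X ∈ ((Conf s A).filter (fun X => (DD X).card ≠ ∏ c, s c)).filter (fun X => Rel X = R), F (DD X)
          ≤ ∑ X ∈ ((Conf s A).filter (fun X => (DD X).card ≠ ∏ c, s c)).filter (fun X => Rel X = R),
            K / L ^ (∏ c, b c) := by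
            apply sum_le_sum
            intro X hX
            rw [mem_filter, mem_filter] at hX
            refine (hF X hX.1.1 hX.1.2).trans ?_
            apply div_le_div_of_nonneg_left hK (by positivity)
            exact pow_le_pow_right₀ hL (hlow X hX.2)
        _ = ((((Conf s A).filter (fun X => (DD X).card ≠ ∏ c, s c)).filter
            (fun X => Rel X = R)).card : ℝ) * (K / L ^ (∏ c, b c)) := by
            rw [sum_const, nsmul_eq_mul]
        _ ≤ ((∏ c, (A c).card ^ b c : ℕ) : ℝ) * (K / L ^ (∏ c, b c)) := by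
            apply mul_le_mul_of_nonneg_right _ (by positivity)
            have h4 : (((Conf s A).filter (fun X => (DD X).card ≠ ∏ c, s c)).filter
              (fun X => Rel X = R)).card ≤ ((Conf s A).filter (fun X => Rel X = R)).card :=
              card_le_card (filter_subset_filter _ (filter_subset _ _))
            exact_mod_cast h4.trans hcard
        _ = K * (((∏ c, (A c).card ^ b c : ℕ) : ℝ) / L ^ (∏ c, b c)) := by ring
        _ ≤ _ := mul_le_mul_of_nonneg_left (ratio_le hs hL hδ A hA b hb hne) hK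
  refine (sum_le_sum hpt).trans ?_
  rw [sum_const, nsmul_eq_mul, card_univ, Fintype.card_finset, Fintype.card_prod, hcardE, sq]
  push_cast
  rfl

end Pool.Agent.K4H50.SG
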