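import Pool.Agent.K4H50.SG.B5

set_option autoImplicit false

/-! # Assembling the estimates -/

namespace Pool.Agent.K4H50.SG

open Finset Filter Topology Pool.Agent.H387R2 Pool.Agent.H387R2.Uni

variable {d : ℕ} {s : Fin d → ℕ}

theorem upp_all (k : ℕ) : ∃ B : ℝ, 1 ≤ B ∧ ∀ C : ℝ, ∀ᶠ N : ℕ in atTop, ∀ j ≤ k, ∀ T : Finset ℕ,
    T.card = j + 1 → (∀ t ∈ T, (t : ℝ) ≤ Real.log N ^ C) →
      (piT T N : ℝ) ≤ B * ((N / Real.log N ^ (j + 1)) * CT T) := by
  induction k with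
  | zero =>
    obtain ⟨B, hB, h⟩ := Pool.Agent.W218.TX.pi_upper 0
    refine ⟨max B 1, le_max_right _ _, fun C => ?_⟩
    filter_upwards [h C, eventually_ge_atTop 3] with N hN h3 j hj T hT ht
    obtain rfl : j = 0 := by omega
    have hL : 0 < Real.log N := Real.log_pos (by exact_mod_cast (by omega : 1 < N))
    refine (hN T hT ht).trans ?_
    apply mul_le_mul_of_nonneg_right (le_max_left _ _)
    exact mul_nonneg (by positivity) (CT_nonneg T)
  | succ k ih =>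
    obtain ⟨B, hB, h⟩ := Pool.Agent.W218.TX.pi_upper (k + 1)
    obtain ⟨B', hB', h'⟩ := ih
    refine ⟨max B B', hB'.trans (le_max_right _ _), fun C => ?_⟩
    filter_upwards [h C, h' C, eventually_ge_atTop 3] with N hN hN' h3 j hj T hT ht
    have hL : 0 < Real.log N := Real.log_pos (by exact_mod_cast (by omega : 1 < N))
    have h0 : 0 ≤ (N / Real.log N ^ (j + 1)) * CT T := mul_nonneg (by positivity) (CT_nonneg T)
    rcases Nat.lt_or_ge k j with hk | hk
    · obtain rfl : j = k + 1 := by omega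
      exact (hN T hT ht).trans (mul_le_mul_of_nonneg_right (le_max_left _ _) h0)
    · exact (hN' j hk T hT ht).trans (mul_le_mul_of_nonneg_right (le_max_right _ _) h0)

theorem cts_all (k : ℕ) (ε C : ℝ) (hε : 0 < ε) : ∀ᶠ N : ℕ in atTop, ∀ j ≤ k, ∀ T : Finset ℕ,
    T.card = j + 1 → (∀ t ∈ T, t ≤ ⌊Real.log N ^ C⌋₊) →
    (1 - ε) * ((1 / MB.rho ⌊Real.log (Real.log N)⌋₊) ^ (j + 1) *
      (gT (WW ⌊Real.log (Real.log N)⌋₊) T / WW ⌊Real.log (Real.log N)⌋₊)) ≤ CT T ∧
    CT T ≤ (1 + ε) * ((1 / MB.rho ⌊Real.log (Real.log N)⌋₊) ^ (j + 1) *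
      (gT (WW ⌊Real.log (Real.log N)⌋₊) T / WW ⌊Real.log (Real.log N)⌋₊)) := by
  induction k with
  | zero =>
    filter_upwards [Pool.Agent.H362R2.QT.CTS 0 ε C hε] with N hN j hj T hT ht
    obtain rfl : j = 0 := by omega
    exact hN T hT ht
  | succ k ih =>
    filter_upwards [Pool.Agent.H362R2.QT.CTS (k + 1) ε C hε, ih] with N hN hN' j hj T hT ht
    rcases Nat.lt_or_ge k j with hk | hk
    · obtain rfl : j = k + 1 := by omega
      exact hN T hT ht
    · exact hN' j hk T hT ht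

theorem cnt_mono {k j N' : ℕ} (hjk : j ≤ k) (T : Finset ℕ) : cnt k N' T ≤ cnt j N' T := by
  unfold cnt
  apply card_le_card
  apply filter_subset_filter
  exact Ioc_subset_Ioc_left (by omega)

theorem proportion' {ι : Type*} (G : Finset ι) (f c : ι → ℝ) {P B ε : ℝ} (hP : 0 < P) (hB : 0 < B)
    (hε1 : ε ≤ 1) (hc : ∀ x ∈ G, 0 ≤ c x)
    (h1 : (1 - ε / 2) * (P * ∑ x ∈ G, c x) ≤ ∑ x ∈ G, f x) (h2 : ∀ x ∈ G, f x ≤ B * (P * c x))
    [DecidablePred fun x => (1 - ε) * (P * c x) ≤ f x] :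
    ε / (2 * B) * ∑ x ∈ G, c x ≤ ∑ x ∈ G.filter (fun x => (1 - ε) * (P * c x) ≤ f x), c x := by
  have h3 := sum_filter_add_sum_filter_not G (fun x => (1 - ε) * (P * c x) ≤ f x) f
  have h4 : ∑ x ∈ G.filter (fun x => (1 - ε) * (P * c x) ≤ f x), f x ≤
      B * (P * ∑ x ∈ G.filter (fun x => (1 - ε) * (P * c x) ≤ f x), c x) := by
    rw [mul_sum, mul_sum]
    exact sum_le_sum fun x hx => h2 x (mem_filter.1 hx).1
  have h5 : ∑ x ∈ G.filter (fun x => ¬ (1 - ε) * (P * c x) ≤ f x), f x ≤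
      (1 - ε) * (P * ∑ x ∈ G, c x) := by
    calc _ ≤ ∑ x ∈ G.filter (fun x => ¬ (1 - ε) * (P * c x) ≤ f x), (1 - ε) * (P * c x) := by
          apply sum_le_sum
          intro x hx
          exact (not_le.1 (mem_filter.1 hx).2).le
      _ ≤ ∑ x ∈ G, (1 - ε) * (P * c x) := by
          apply sum_le_sum_of_subset_of_nonneg (filter_subset _ _)
          intro x hx _
          exact mul_nonneg (by linarith) (mul_nonneg hP.le (hc x hx))
      _ = _ := by rw [mul_sum, mul_sum]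
  have h6 : ε / 2 * (P * ∑ x ∈ G, c x) ≤
      B * (P * ∑ x ∈ G.filter (fun x => (1 - ε) * (P * c x) ≤ f x), c x) := by linarith
  have h7 : P * (ε / 2 * ∑ x ∈ G, c x) ≤
      P * (B * ∑ x ∈ G.filter (fun x => (1 - ε) * (P * c x) ≤ f x), c x) := by linarith
  have h8 := le_of_mul_le_mul_left h7 hP
  rw [div_mul_eq_mul_div, div_le_iff₀ (by positivity)]
  linarith

/-- powers of `log log` times a negative power of `log` -/
theorem loglog_small (k : ℕ) (K : ℝ) {δ η : ℝ} (hδ : 0 < δ) (hη : 0 < η) : ∀ᶠ N : ℕ in atTop,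
    K * (⌊Real.log (Real.log N)⌋₊ : ℝ) ^ k / Real.log N ^ δ ≤ η := by
  have tN : Tendsto (fun N : ℕ => (N : ℝ)) atTop atTop := tendsto_natCast_atTop_atTop
  have tL : Tendsto (fun N : ℕ => Real.log (N : ℝ)) atTop atTop := Real.tendsto_log_atTop.comp tN
  have tLL : Tendsto (fun N : ℕ => Real.log (Real.log (N : ℝ))) atTop atTop :=
    Real.tendsto_log_atTop.comp tL
  have h := (isLittleO_log_rpow_rpow_atTop (k : ℝ) (s := δ) hδ).def (c := η / (|K| + 1)) (by positivity)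
  filter_upwards [tL.eventually h, tL.eventually (eventually_ge_atTop 1),
    tLL.eventually (eventually_ge_atTop 1)] with N h1 h2 h3
  have hL0 : 0 < Real.log (N : ℝ) := by linarith
  have h4 : (⌊Real.log (Real.log N)⌋₊ : ℝ) ≤ Real.log (Real.log N) := Nat.floor_le (by linarith)
  rw [Real.norm_of_nonneg (Real.rpow_nonneg (by linarith) _),
    Real.norm_of_nonneg (Real.rpow_nonneg hL0.le _), Real.rpow_natCast] at h1
  rw [div_le_iff₀ (Real.rpow_pos_of_pos hL0 _)]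
  calc K * (⌊Real.log (Real.log N)⌋₊ : ℝ) ^ k ≤ (|K| + 1) * (Real.log (Real.log N)) ^ k := by
        apply mul_le_mul _ (pow_le_pow_left₀ (Nat.cast_nonneg _) h4 k) (by positivity) (by positivity)
        linarith [le_abs_self K]
    _ ≤ (|K| + 1) * (η / (|K| + 1) * Real.log N ^ δ) := mul_le_mul_of_nonneg_left h1 (by positivity)
    _ = η * Real.log N ^ δ := by field_simp

theorem c1_tendsto (k : ℕ) {η : ℝ} (hη : 0 < η) : ∃ δ : ℝ, 0 < δ ∧ δ ≤ 1 / 4 ∧
    1 - η ≤ (1 - 2 * δ) * c1 δ ^ (k + 1) := by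
  have h : ContinuousAt (fun δ : ℝ => (1 - 2 * δ) * c1 δ ^ (k + 1)) 0 := by
    unfold c1
    apply ContinuousAt.mul (by fun_prop)
    apply ContinuousAt.pow
    apply ContinuousAt.div (by fun_prop) (by fun_prop) (by norm_num)
  have h0 : (1 - 2 * (0:ℝ)) * c1 0 ^ (k + 1) = 1 := by
    unfold c1; norm_num
  have h1 : Tendsto (fun δ : ℝ => (1 - 2 * δ) * c1 δ ^ (k + 1)) (𝓝 0) (𝓝 1) := by
    have h9 := h.tendsto
    beta_reduce at h9
    rwa [h0] at h9
  obtain ⟨r, hr, h2⟩ := Metric.eventually_nhds_iff.1 (h1.eventually (lt_mem_nhds (show 1 - η < 1 by linarith)))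
  refine ⟨min (r / 2) (1 / 4), lt_min (by positivity) (by norm_num), min_le_right _ _, ?_⟩
  apply le_of_lt
  apply h2
  rw [Real.dist_eq, sub_zero, abs_of_pos (lt_min (by positivity) (by norm_num))]
  exact lt_of_le_of_lt (min_le_left _ _) (by linarith)

end Pool.Agent.K4H50.SG
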