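import Pool.Agent.K4H50.SG.B6

set_option autoImplicit false

/-! # The theorem at natural numbers -/

namespace Pool.Agent.K4H50.SG

open Finset Filter Topology Pool.Agent.H387R2 Pool.Agent.H387R2.Uni

variable {d : ℕ} {s : Fin d → ℕ}

/-- truncated singular series -/
noncomputable def tau (k y : ℕ) (T : Finset ℕ) : ℝ := (1 / MB.rho y) ^ (k + 1) * (gT (WW y) T / WW y)

theorem tau_nonneg (k y : ℕ) (T : Finset ℕ) : 0 ≤ tau k y T := by
  unfold tau
  have := MB.rho_pos y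
  positivity

theorem gT_div_le (y : ℕ) {T : Finset ℕ} (hT : T.Nonempty) : (gT (WW y) T : ℝ) / WW y ≤ MB.rho y := by
  unfold MB.rho
  apply div_le_div_of_nonneg_right _ (Nat.cast_nonneg _)
  exact_mod_cast gT_le y hT

theorem tau_le {k y : ℕ} (hy : 1 ≤ y) {T : Finset ℕ} (hT : T.Nonempty) : tau k y T ≤ (y : ℝ) ^ k := by
  have h0 := MB.rho_pos y
  have h1 := MB.rho_ge hy
  have hy0 : (0:ℝ) < y := by exact_mod_cast hy
  unfold tau
  calc (1 / MB.rho y) ^ (k + 1) * ((gT (WW y) T : ℝ) / WW y)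
      ≤ (1 / MB.rho y) ^ (k + 1) * MB.rho y :=
        mul_le_mul_of_nonneg_left (gT_div_le y hT) (by positivity)
    _ = (1 / MB.rho y) ^ k := by
        rw [pow_succ, mul_assoc, one_div_mul_cancel h0.ne', mul_one]
    _ ≤ (y : ℝ) ^ k := by
        apply pow_le_pow_left₀ (by positivity)
        rw [div_le_iff₀ h0]
        rw [div_le_iff₀ hy0] at h1
        linarith

/-- the nondegenerate configurations -/
def Good (s : Fin d → ℕ) (A : Fin d → Finset ℕ) : Finset (∀ c : Fin d, Fin (s c) → ℕ) :=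
  (Conf s A).filter (fun X => (DD X).card = ∏ c, s c)

open Classical in
theorem natural (hs : ∀ c, 1 ≤ s c) {k : ℕ} (hk : ∏ c, s c = k + 1) {ε : ℝ} (hε : 0 < ε) (hε1 : ε < 1) :
    ∃ c0 : ℝ, 0 < c0 ∧ ∀ δ C : ℝ, 0 < δ → ∀ᶠ N : ℕ in atTop, ∀ A : Fin d → Finset ℕ,
      (∀ X ∈ Conf s A, ∀ t ∈ DD X, (t : ℝ) ≤ Real.log N ^ C) →
      (∀ c, Real.log N ^ (((∏ c' ∈ univ.erase c, s c' : ℕ) : ℝ) + δ) ≤ (A c).card) →
      (1 - ε) * ((Conf s A).card : ℝ) ≤ ∑ X ∈ Good s A, CT (DD X) ∧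
      (1 - ε) * (N / Real.log N ^ (k + 1) * ∑ X ∈ Good s A, CT (DD X)) ≤
        ∑ X ∈ Good s A, (cnt k (N - ⌊Real.log N ^ C⌋₊) (DD X) : ℝ) ∧
      c0 * ∑ X ∈ Good s A, CT (DD X) ≤ ∑ X ∈ (Good s A).filter (fun X =>
        (1 - ε) * (N / Real.log N ^ (k + 1) * CT (DD X)) ≤ (cnt k (N - ⌊Real.log N ^ C⌋₊) (DD X) : ℝ)),
          CT (DD X) := by
  obtain ⟨B, hB, hupp⟩ := upp_all k
  have hB0 : 0 < B := by linarith
  refine ⟨ε / (2 * B), by positivity, fun δ C hδ => ?_⟩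
  set η : ℝ := ε / 16 with hη
  have hη0 : 0 < η := by positivity
  have hη1 : η ≤ 1 / 16 := by linarith
  obtain ⟨δ', hδ'0, hδ'1, hc1⟩ := c1_tendsto k hη0
  set K2 : ℝ := (2:ℝ) ^ ((k + 1) ^ 2) with hK2
  have hK20 : 0 < K2 := by positivity
  have tN : Tendsto (fun N : ℕ => (N : ℝ)) atTop atTop := tendsto_natCast_atTop_atTop
  have ty : Tendsto (fun N : ℕ => ⌊Real.log (Real.log (N : ℝ))⌋₊) atTop atTop :=
    tendsto_nat_floor_atTop.comp (Real.tendsto_log_atTop.comp (Real.tendsto_log_atTop.comp tN))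
  filter_upwards [par_eventually k C hδ'0 (by linarith) 0, hupp C, cts_all k η C hη0,
    loglog_small k K2 hδ hη0, loglog_small k (K2 * (2 * B)) hδ hη0,
    ty.eventually (eventually_ge_atTop 1), eventually_ge_atTop 3] with N hP hU hT hs1 hs2 hy hN3
  intro A hAM hAc
  set L := Real.log (N : ℝ) with hL
  set M := ⌊L ^ C⌋₊ with hM
  set y := ⌊Real.log L⌋₊ with hydef
  have hL1 : 1 ≤ L := hP.hL
  have hL0 : 0 < L := by linarith
  have hN0 : (0:ℝ) < N := by
    have : 0 < N := by omega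
    exact_mod_cast this
  have hρ0 := MB.rho_pos y
  have hρ1 := MB.rho_le_one y
  have hy0 : (0:ℝ) < y := by exact_mod_cast hy
  set P : ℝ := N / L ^ (k + 1) with hPdef
  have hP0 : 0 < P := by rw [hPdef]; positivity
  set cf : ℝ := ((Conf s A).card : ℝ) with hcf
  have hcf0 : 0 ≤ cf := Nat.cast_nonneg _
  have hAM' : ∀ X ∈ Conf s A, ∀ t ∈ DD X, t ≤ M := fun X hX t ht => Nat.le_floor (hAM X hX t ht)
  -- sizes of the patterns
  have hne : ∀ X : (∀ c : Fin d, Fin (s c) → ℕ), (DD X).Nonempty := by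
    intro X
    exact ⟨_, sg_mem X (fun c => ⟨0, hs c⟩)⟩
  have hcard : ∀ X : (∀ c : Fin d, Fin (s c) → ℕ), (DD X).card ≤ k + 1 := by
    intro X
    rw [← hk]
    refine card_image_le.trans (le_of_eq ?_)
    rw [card_univ, Fintype.card_pi]
    simp
  have hρr : (1 / MB.rho y) = (WW y : ℝ) / Nat.totient (WW y) := by
    unfold MB.rho
    rw [one_div_div]
  -- the two main sums
  have m1 : cf ≤ ∑ X ∈ Conf s A, tau k y (DD X) := by
    have h := sing_mean A y (s := s)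
    rw [hk, ← hρr] at h
    exact h
  have m2 : (1 - η) * (P * ∑ X ∈ Conf s A, tau k y (DD X)) ≤
      ∑ X ∈ Conf s A, (cnt k (N - M) (DD X) : ℝ) := by
    have h := main_ineq hP hδ'0 hδ'1 A hAM'
    rw [hk] at h
    refine le_trans ?_ h
    have hW0 : (0:ℝ) < WW y := by exact_mod_cast WW_pos y
    have hφ0 : (0:ℝ) < Nat.totient (WW y) := by exact_mod_cast Nat.totient_pos.2 (WW_pos y)
    have e1 : ∑ X ∈ Conf s A, tau k y (DD X) =
        ((WW y : ℝ) / Nat.totient (WW y)) ^ (k + 1) * ((∑ X ∈ Conf s A, (gT (WW y) (DD X) : ℝ)) / WW y) := by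
      unfold tau
      rw [← mul_sum, ← sum_div, hρr]
    rw [e1]
    have e2 : (1 - 2 * δ') * (N / WW y) * ((c1 δ' * (WW y / (Nat.totient (WW y) * L))) ^ (k + 1) *
        ∑ X ∈ Conf s A, (gT (WW y) (DD X) : ℝ)) =
        ((1 - 2 * δ') * c1 δ' ^ (k + 1)) * (P * (((WW y : ℝ) / Nat.totient (WW y)) ^ (k + 1) *
          ((∑ X ∈ Conf s A, (gT (WW y) (DD X) : ℝ)) / WW y))) := by
      rw [hPdef]
      rw [mul_pow, div_pow, mul_pow, div_pow]
      field_simp
    rw [e2]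
    apply mul_le_mul_of_nonneg_right hc1
    positivity
  -- the degenerate part
  have hdeg1 : ∑ X ∈ (Conf s A).filter (fun X => (DD X).card ≠ ∏ c, s c), tau k y (DD X) ≤ η * cf := by
    have h := deg_sum hs hL1 hδ (K := L ^ (k + 1)) (by positivity) A hAc (fun _ => (1:ℝ)) (by
      intro X _ _
      rw [le_div_iff₀ (by positivity), one_mul]
      exact pow_le_pow_right₀ hL1 (hcard X))
    rw [hk] at h
    have e1 : L ^ (k + 1) * (((Conf s A).card : ℝ) / L ^ (((k + 1 : ℕ) : ℝ) + δ)) = cf / L ^ δ := by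
      rw [Real.rpow_add hL0, Real.rpow_natCast, hcf]
      field_simp
    rw [e1, sum_const, nsmul_eq_mul, mul_one] at h
    rw [hk]
    calc ∑ X ∈ (Conf s A).filter (fun X => (DD X).card ≠ k + 1), tau k y (DD X)
        ≤ ∑ _X ∈ (Conf s A).filter (fun X => (DD X).card ≠ k + 1), (y : ℝ) ^ k :=
          sum_le_sum fun X _ => tau_le hy (hne X)
      _ = (((Conf s A).filter (fun X => (DD X).card ≠ k + 1)).card : ℝ) * (y : ℝ) ^ k := by
          rw [sum_const, nsmul_eq_mul]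
      _ ≤ (K2 * (cf / L ^ δ)) * (y : ℝ) ^ k := mul_le_mul_of_nonneg_right h (by positivity)
      _ = (K2 * (y : ℝ) ^ k / L ^ δ) * cf := by ring
      _ ≤ η * cf := mul_le_mul_of_nonneg_right hs1 hcf0
  have hdeg2 : ∑ X ∈ (Conf s A).filter (fun X => (DD X).card ≠ ∏ c, s c), (cnt k (N - M) (DD X) : ℝ) ≤
      η * (P * cf) := by
    have h := deg_sum hs hL1 hδ (K := 2 * B * (N * (y : ℝ) ^ k)) (by positivity) A hAc
      (fun T => (cnt k (N - M) T : ℝ)) (by
      intro X hX _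
      beta_reduce
      set T := DD X with hTdef
      have hTne : 1 ≤ T.card := card_pos.2 (hne X)
      obtain ⟨j, hj⟩ : ∃ j, T.card = j + 1 := ⟨T.card - 1, by omega⟩
      have hjk : j ≤ k := by
        have := hcard X
        rw [← hTdef] at this
        omega
      have h1 : (cnt k (N - M) T : ℝ) ≤ piT T N := by
        have := (cnt_mono hjk T (N' := N - M)).trans (cnt_le_piT hj (hAM' X hX) hP.hMN)
        exact_mod_cast this
      have h2 := hU j hjk T hj (hAM X hX)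
      have h3 := (hT j hjk T hj (hAM' X hX)).2
      have h4 : CT T ≤ 2 * (y : ℝ) ^ k := by
        refine h3.trans ?_
        have h5 : (1 / MB.rho y) ^ (j + 1) * ((gT (WW y) T : ℝ) / WW y) ≤ (y : ℝ) ^ j := tau_le hy (hne X)
        have h6 : (y : ℝ) ^ j ≤ (y : ℝ) ^ k := pow_le_pow_right₀ (by exact_mod_cast hy) hjk
        have h7 : 0 ≤ (1 / MB.rho y) ^ (j + 1) * ((gT (WW y) T : ℝ) / WW y) := by positivity
        calc (1 + η) * ((1 / MB.rho y) ^ (j + 1) * ((gT (WW y) T : ℝ) / WW y))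
            ≤ 2 * ((1 / MB.rho y) ^ (j + 1) * ((gT (WW y) T : ℝ) / WW y)) :=
              mul_le_mul_of_nonneg_right (by linarith) h7
          _ ≤ 2 * (y : ℝ) ^ k := by linarith
      rw [hj]
      calc (cnt k (N - M) T : ℝ) ≤ B * ((N / L ^ (j + 1)) * CT T) := h1.trans h2
        _ ≤ B * ((N / L ^ (j + 1)) * (2 * (y : ℝ) ^ k)) := by gcongr
        _ = _ := by ring)
    rw [hk] at h
    rw [hk]
    refine h.trans ?_
    have e1 : (2:ℝ) ^ ((k + 1) ^ 2) * (2 * B * (N * (y : ℝ) ^ k) *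
        (((Conf s A).card : ℝ) / L ^ (((k + 1 : ℕ) : ℝ) + δ))) =
        (K2 * (2 * B) * (y : ℝ) ^ k / L ^ δ) * (P * cf) := by
      rw [Real.rpow_add hL0, Real.rpow_natCast, hcf, hPdef, hK2]
      field_simp
    rw [e1]
    exact mul_le_mul_of_nonneg_right hs2 (mul_nonneg hP0.le hcf0)
  -- splitting
  have sp1 : ∑ X ∈ Conf s A, tau k y (DD X) = ∑ X ∈ Good s A, tau k y (DD X) +
      ∑ X ∈ (Conf s A).filter (fun X => (DD X).card ≠ ∏ c, s c), tau k y (DD X) :=
    (sum_filter_add_sum_filter_not _ _ _).symm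
  have sp2 : ∑ X ∈ Conf s A, (cnt k (N - M) (DD X) : ℝ) = ∑ X ∈ Good s A, (cnt k (N - M) (DD X) : ℝ) +
      ∑ X ∈ (Conf s A).filter (fun X => (DD X).card ≠ ∏ c, s c), (cnt k (N - M) (DD X) : ℝ) :=
    (sum_filter_add_sum_filter_not _ _ _).symm
  -- the singular series
  have t1 : (1 - η) * ∑ X ∈ Good s A, tau k y (DD X) ≤ ∑ X ∈ Good s A, CT (DD X) := by
    rw [mul_sum]
    apply sum_le_sum
    intro X hX
    rw [Good, mem_filter, hk] at hX
    exact (hT k le_rfl _ hX.2 (hAM' X hX.1)).1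
  have t2 : ∑ X ∈ Good s A, CT (DD X) ≤ (1 + η) * ∑ X ∈ Good s A, tau k y (DD X) := by
    rw [mul_sum]
    apply sum_le_sum
    intro X hX
    rw [Good, mem_filter, hk] at hX
    exact (hT k le_rfl _ hX.2 (hAM' X hX.1)).2
  set G1 := ∑ X ∈ Good s A, tau k y (DD X) with hG1
  set G2 := ∑ X ∈ Good s A, CT (DD X) with hG2
  set G3 := ∑ X ∈ Good s A, (cnt k (N - M) (DD X) : ℝ) with hG3
  set D1 := ∑ X ∈ (Conf s A).filter (fun X => (DD X).card ≠ ∏ c, s c), tau k y (DD X) with hD1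
  set D3 := ∑ X ∈ (Conf s A).filter (fun X => (DD X).card ≠ ∏ c, s c), (cnt k (N - M) (DD X) : ℝ) with hD3
  have hD10 : 0 ≤ D1 := sum_nonneg fun X _ => tau_nonneg k y _
  have hG10 : 0 ≤ G1 := sum_nonneg fun X _ => tau_nonneg k y _
  have g1 : (1 - η) * cf ≤ G1 := by linarith
  have hb : (1 - ε) * cf ≤ G2 := by
    have h1 : (1 - η) * ((1 - η) * cf) ≤ (1 - η) * G1 := mul_le_mul_of_nonneg_left g1 (by linarith)
    have h2 : (1 - ε) * cf ≤ (1 - η) * ((1 - η) * cf) := by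
      rw [← mul_assoc]
      apply mul_le_mul_of_nonneg_right _ hcf0
      nlinarith
    linarith
  have g2 : cf ≤ 2 * G1 := by
    have : (1 / 2 : ℝ) * cf ≤ (1 - η) * cf := mul_le_mul_of_nonneg_right (by linarith) hcf0
    linarith
  have hPG : 0 ≤ P * G1 := mul_nonneg hP0.le hG10
  have ha : (1 - ε / 2) * (P * G2) ≤ G3 := by
    have h1 : (1 - η) * (P * G1) ≤ (1 - η) * (P * (G1 + D1)) :=
      mul_le_mul_of_nonneg_left (mul_le_mul_of_nonneg_left (by linarith) hP0.le) (by linarith)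
    have h2 : η * (P * cf) ≤ η * (P * (2 * G1)) :=
      mul_le_mul_of_nonneg_left (mul_le_mul_of_nonneg_left g2 hP0.le) hη0.le
    rw [sp1] at m2
    rw [sp2] at m2
    have h3 : (1 - 3 * η) * (P * G1) ≤ G3 := by nlinarith
    have h4 : (1 - ε / 2) * (P * G2) ≤ (1 - ε / 2) * (P * ((1 + η) * G1)) :=
      mul_le_mul_of_nonneg_left (mul_le_mul_of_nonneg_left t2 hP0.le) (by linarith)
    have h5 : (1 - ε / 2) * (P * ((1 + η) * G1)) = ((1 - ε / 2) * (1 + η)) * (P * G1) := by ring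
    have h6 : (1 - ε / 2) * (1 + η) ≤ 1 - 3 * η := by
      rw [hη]
      nlinarith
    have h7 := mul_le_mul_of_nonneg_right h6 hPG
    linarith
  have hG20 : 0 ≤ G2 := sum_nonneg fun X _ => CT_nonneg _
  refine ⟨hb, ?_, ?_⟩
  · refine le_trans ?_ ha
    apply mul_le_mul_of_nonneg_right (by linarith)
    exact mul_nonneg hP0.le hG20
  · apply proportion' (Good s A) (fun X => (cnt k (N - M) (DD X) : ℝ)) (fun X => CT (DD X)) hP0 hB0
      hε1.le (fun X _ => CT_nonneg _) ha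
    intro X hX
    rw [Good, mem_filter, hk] at hX
    have h1 : (cnt k (N - M) (DD X) : ℝ) ≤ piT (DD X) N := by
      exact_mod_cast cnt_le_piT hX.2 (hAM' X hX.1) hP.hMN
    exact h1.trans (hU k le_rfl _ hX.2 (hAM X hX.1))

end Pool.Agent.K4H50.SG
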