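import Pool.Agent.K4H50.SG.B6

set_option autoImplicit false

/-! # Abstract averaging systems of patterns -/

namespace Pool.Agent.K4H50.SG.Abs

open Finset Filter Topology Pool.Agent.H387R2 Pool.Agent.H387R2.Uni

variable {α κ : Type} [Fintype κ]

/-- the product of the values of `f` at the points of `X` -/
noncomputable def evA (pt : α → κ → ℕ) (f : ℕ → ℝ) (X : α) : ℝ := ∏ e : κ, f (pt X e)

/-- the averaging property -/
def Avg (Ω : Finset α) (pt : α → κ → ℕ) : Prop :=
  ∀ (I : Finset ℕ) (f : ℕ → ℕ → ℝ) (g : ℕ → ℝ), (∀ n v, 0 ≤ f n v) → (∀ v, 0 ≤ g v) →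
    (∀ v, (I.card : ℝ) * g v ≤ ∑ n ∈ I, f n v) →
    (I.card : ℝ) * ∑ X ∈ Ω, evA pt g X ≤ ∑ n ∈ I, ∑ X ∈ Ω, evA pt (f n) X

/-- the set of points of `X` -/
def DA (pt : α → κ → ℕ) (X : α) : Finset ℕ := univ.image (pt X)

theorem mem_DA (pt : α → κ → ℕ) (X : α) (e : κ) : pt X e ∈ DA pt X :=
  mem_image_of_mem _ (mem_univ e)

theorem evA_ind (pt : α → κ → ℕ) (P : ℕ → Prop) [DecidablePred P] (X : α) :
    evA pt (fun v => if P v then (1:ℝ) else 0) X = if (∀ t ∈ DA pt X, P t) then 1 else 0 := by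
  unfold evA
  by_cases h : ∀ t ∈ DA pt X, P t
  · rw [if_pos h]
    apply prod_eq_one
    intro e _
    exact if_pos (h _ (mem_DA pt X e))
  · rw [if_neg h]
    push Not at h
    obtain ⟨t, ht, hP⟩ := h
    obtain ⟨e, _, rfl⟩ := mem_image.1 ht
    exact prod_eq_zero (mem_univ e) (if_neg hP)

theorem evA_const_mul (pt : α → κ → ℕ) (a : ℝ) (f : ℕ → ℝ) (X : α) :
    evA pt (fun v => a * f v) X = a ^ (Fintype.card κ) * evA pt f X := by
  unfold evA
  rw [Finset.prod_mul_distrib, Finset.prod_const, Finset.card_univ]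

theorem evA_nonneg (pt : α → κ → ℕ) {f : ℕ → ℝ} (hf : ∀ v, 0 ≤ f v) (X : α) : 0 ≤ evA pt f X :=
  Finset.prod_nonneg fun _ _ => hf _

variable {k : ℕ} {C δ : ℝ} {q N M y : ℕ}

theorem main_ineq (hP : Par k C δ q N M y) (hδ : 0 < δ) (hδ1 : δ ≤ 1 / 4) {Ω : Finset α}
    {pt : α → κ → ℕ} (havg : Avg Ω pt) (hA : ∀ X ∈ Ω, ∀ t ∈ DA pt X, t ≤ M) :
    (1 - 2 * δ) * (N / WW y) * ((c1 δ * (WW y / (Nat.totient (WW y) * Real.log N))) ^
      (Fintype.card κ) * ∑ X ∈ Ω, (gT (WW y) (DA pt X) : ℝ)) ≤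
      ∑ X ∈ Ω, (cnt k (N - M) (DA pt X) : ℝ) := by
  classical
  set W := WW y with hWdef
  have hW : 0 < W := WW_pos y
  have hW0 : (0:ℝ) < W := by exact_mod_cast hW
  have hL : 0 < Real.log N := by linarith [hP.hL]
  have hφ0 : (0:ℝ) < Nat.totient W := by exact_mod_cast Nat.totient_pos.2 hW
  have hc1 : 0 < c1 δ := div_pos (by linarith) (by linarith)
  set a : ℝ := c1 δ * (W / (Nat.totient W * Real.log N)) with ha
  have ha0 : 0 ≤ a := by rw [ha]; positivity
  set f : ℕ → ℕ → ℝ := fun n v => if (n + v).Prime then (1:ℝ) else 0 with hf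
  set g : ℕ → ℕ → ℝ := fun b v => a * (if (v ≤ M ∧ Nat.Coprime W (b + v)) then (1:ℝ) else 0) with hg
  have hf0 : ∀ n v, 0 ≤ f n v := by
    intro n v
    simp only [hf]
    split_ifs <;> norm_num
  -- one class
  have h1 : ∀ b ∈ range W, (1 - 2 * δ) * (N / W) * ∑ X ∈ Ω, evA pt (g b) X ≤
      ∑ n ∈ (Ioc (k + 1) (N - M)).filter (fun n => n ≡ b [MOD W]), ∑ X ∈ Ω, evA pt (f n) X := by
    intro b _
    have hg0 : ∀ v, 0 ≤ g b v := by
      intro v
      simp only [hg]
      apply mul_nonneg ha0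
      split_ifs <;> norm_num
    have hfg : ∀ v, (((Ioc (k + 1) (N - M)).filter (fun n => n ≡ b [MOD W])).card : ℝ) * g b v ≤
        ∑ n ∈ (Ioc (k + 1) (N - M)).filter (fun n => n ≡ b [MOD W]), f n v := by
      intro v
      by_cases hv : v ≤ M ∧ Nat.Coprime W (b + v)
      · have e0 : g b v = a := by
          simp only [hg]
          rw [if_pos hv, mul_one]
        have h3 := class_lower hP hδ hv.1 hv.2
        have h4 := size_upper hP b
        rw [← hWdef] at h3 h4
        have h5 : ∑ n ∈ (Ioc (k + 1) (N - M)).filter (fun n => n ≡ b [MOD W]), f n v =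
            (((Ioc (k + 1) (N - M)).filter (fun n => n ≡ b [MOD W] ∧ (n + v).Prime)).card : ℝ) := by
          simp only [hf]
          rw [← filter_filter, card_filter (fun n => (n + v).Prime)]
          push_cast
          rfl
        rw [h5, e0]
        refine le_trans ?_ h3
        refine (mul_le_mul_of_nonneg_right h4 ha0).trans (le_of_eq ?_)
        rw [ha]
        unfold c1
        have : 1 + δ ≠ 0 := by linarith
        field_simp
      · have e0 : g b v = 0 := by
          simp only [hg]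
          rw [if_neg hv, mul_zero]
        rw [e0, mul_zero]
        exact sum_nonneg fun n _ => hf0 n v
    have h2 := havg ((Ioc (k + 1) (N - M)).filter (fun n => n ≡ b [MOD W])) f (g b)
      hf0 hg0 hfg
    refine le_trans ?_ h2
    apply mul_le_mul_of_nonneg_right (size_lower hP b)
    exact sum_nonneg fun X _ => evA_nonneg pt hg0 X
  -- sum over the classes
  have s1 : ∑ b ∈ range W, ∑ n ∈ (Ioc (k + 1) (N - M)).filter (fun n => n ≡ b [MOD W]),
      ∑ X ∈ Ω, evA pt (f n) X = ∑ n ∈ Ioc (k + 1) (N - M), ∑ X ∈ Ω, evA pt (f n) X := by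
    rw [← sum_fiberwise_of_maps_to (s := Ioc (k + 1) (N - M)) (t := range W) (g := fun n => n % W)
      (fun n _ => mem_range.2 (Nat.mod_lt _ hW))]
    apply sum_congr rfl
    intro b hb
    apply sum_congr _ fun _ _ => rfl
    apply filter_congr
    intro n _
    rw [Nat.ModEq, Nat.mod_eq_of_lt (mem_range.1 hb)]
  have s2 : ∑ n ∈ Ioc (k + 1) (N - M), ∑ X ∈ Ω, evA pt (f n) X =
      ∑ X ∈ Ω, (cnt k (N - M) (DA pt X) : ℝ) := by
    rw [sum_comm]
    apply sum_congr rfl
    intro X _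
    unfold cnt
    rw [card_filter]
    push_cast
    apply sum_congr rfl
    intro n _
    simp only [hf]
    exact evA_ind pt (fun v => (n + v).Prime) X
  have s3 : ∑ b ∈ range W, ∑ X ∈ Ω, evA pt (g b) X =
      a ^ (Fintype.card κ) * ∑ X ∈ Ω, (gT W (DA pt X) : ℝ) := by
    rw [sum_comm, mul_sum]
    apply sum_congr rfl
    intro X hX
    unfold gT
    rw [card_filter]
    push_cast
    rw [mul_sum]
    apply sum_congr rfl
    intro b _
    simp only [hg]
    rw [evA_const_mul, evA_ind pt (fun v => v ≤ M ∧ Nat.Coprime W (b + v)) X]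
    congr 1
    have : (∀ t ∈ DA pt X, t ≤ M ∧ Nat.Coprime W (b + t)) ↔
        ∀ t ∈ DA pt X, Nat.Coprime W (b + t) :=
      ⟨fun h t ht => (h t ht).2, fun h t ht => ⟨hA X hX t ht, h t ht⟩⟩
    simp only [this]
  rw [← s3, ← s2, ← s1, mul_sum]
  exact sum_le_sum h1

/-- the mean value of the truncated singular series is at least one -/
theorem sing_mean {Ω : Finset α} {pt : α → κ → ℕ} (havg : Avg Ω pt) (y : ℕ) :
    (Ω.card : ℝ) ≤ ∑ X ∈ Ω,
      ((WW y : ℝ) / Nat.totient (WW y)) ^ (Fintype.card κ) * (gT (WW y) (DA pt X) / WW y) := by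
  classical
  set W := WW y with hWdef
  have hW : 0 < W := WW_pos y
  have hW0 : (0:ℝ) < W := by exact_mod_cast hW
  have hφ0 : (0:ℝ) < Nat.totient W := by exact_mod_cast Nat.totient_pos.2 hW
  set a : ℝ := (W : ℝ) / Nat.totient W with ha
  have ha0 : 0 ≤ a := by rw [ha]; positivity
  set f : ℕ → ℕ → ℝ := fun b v => a * (if Nat.Coprime W (b + v) then (1:ℝ) else 0) with hf
  have hf0 : ∀ n v, 0 ≤ f n v := by
    intro n v
    simp only [hf]
    split_ifs <;> simp [ha0]
  have h1 := havg (range W) f (fun _ => 1) hf0 (fun _ => zero_le_one) (fun v => by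
    simp only [hf]
    rw [← mul_sum, mul_one, card_range]
    have h2 : ∑ b ∈ range W, (if Nat.Coprime W (b + v) then (1:ℝ) else 0) = Nat.totient W := by
      have h3 : (((range W).filter (fun b => Nat.Coprime W (b + v))).card : ℝ) = Nat.totient W := by
        rw [shift_card W v W (fun x => W.Coprime x), Nat.filter_coprime_Ico_eq_totient W v]
      rw [← h3, card_filter]
      push_cast
      rfl
    rw [h2, ha]
    rw [div_mul_cancel₀ _ hφ0.ne'])
  have h4 : ∑ X ∈ Ω, evA pt (fun _ => (1:ℝ)) X = Ω.card := by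
    unfold evA
    simp
  rw [h4, card_range] at h1
  have s3 : ∑ b ∈ range W, ∑ X ∈ Ω, evA pt (f b) X =
      a ^ (Fintype.card κ) * ∑ X ∈ Ω, (gT W (DA pt X) : ℝ) := by
    rw [sum_comm, mul_sum]
    apply sum_congr rfl
    intro X hX
    unfold gT
    rw [card_filter]
    push_cast
    rw [mul_sum]
    apply sum_congr rfl
    intro b _
    simp only [hf]
    rw [evA_const_mul, evA_ind pt (fun v => Nat.Coprime W (b + v)) X]
  rw [s3] at h1
  rw [← mul_sum, ← sum_div, mul_div_assoc', le_div_iff₀ hW0, mul_comm]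
  exact h1

end Pool.Agent.K4H50.SG.Abs
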