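import Pool.Agent.K4H50.SG.C1

set_option autoImplicit false

/-! # The averaging property for the solutions of `a_1 + … + a_r = b_1 + … + b_r` -/

namespace Pool.Agent.K4H50.SG.Eqs

open Finset Pool.Agent.K4H50.SG.Abs
open scoped ComplexConjugate

/-- the pairs of `r`-tuples from `A` with equal sums -/
def Sol (r : ℕ) (A : Finset ℕ) : Finset ((Fin r → ℕ) × (Fin r → ℕ)) :=
  ((Fintype.piFinset fun _ : Fin r => A) ×ˢ (Fintype.piFinset fun _ : Fin r => A)).filter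
    (fun p => ∑ i, p.1 i = ∑ i, p.2 i)

/-- the `2 r` points -/
def pt (r : ℕ) (p : (Fin r → ℕ) × (Fin r → ℕ)) : Fin r ⊕ Fin r → ℕ := Sum.elim p.1 p.2

theorem evA_pt (r : ℕ) (f : ℕ → ℝ) (p : (Fin r → ℕ) × (Fin r → ℕ)) :
    evA (pt r) f p = (∏ i, f (p.1 i)) * ∏ i, f (p.2 i) := by
  unfold evA pt
  rw [Fintype.prod_sum_type]
  rfl

/-- the root of unity -/
noncomputable def om (Q : ℕ) : ℂ := Complex.exp (2 * Real.pi * Complex.I / Q)

theorem om_prim {Q : ℕ} (hQ : Q ≠ 0) : IsPrimitiveRoot (om Q) Q := Complex.isPrimitiveRoot_exp Q hQ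

theorem om_conj {Q : ℕ} (hQ : Q ≠ 0) : om Q * conj (om Q) = 1 := by
  rw [Complex.mul_conj, Complex.normSq_eq_norm_sq, (om_prim hQ).norm'_eq_one hQ]
  norm_num

theorem orth1 {Q a b : ℕ} (hQ : Q ≠ 0) (ha : a < Q) (hb : b < Q) :
    ∑ j ∈ range Q, (om Q ^ j) ^ a * (conj (om Q) ^ j) ^ b = if a = b then (Q : ℂ) else 0 := by
  have e : ∀ j : ℕ, (om Q ^ j) ^ a * (conj (om Q) ^ j) ^ b = (om Q ^ a * conj (om Q) ^ b) ^ j := by
    intro j
    rw [mul_pow, ← pow_mul, ← pow_mul, ← pow_mul, ← pow_mul, mul_comm a j, mul_comm b j]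
  simp only [e]
  set u := om Q ^ a * conj (om Q) ^ b with hu
  have h1 : om Q ^ b * conj (om Q) ^ b = 1 := by
    rw [← mul_pow, om_conj hQ, one_pow]
  by_cases hab : a = b
  · rw [if_pos hab]
    have : u = 1 := by rw [hu, hab]; exact h1
    rw [this]
    simp
  · rw [if_neg hab]
    have hne : u ≠ 1 := by
      intro h
      apply hab
      apply (om_prim hQ).pow_inj ha hb
      have h2 : om Q ^ a = u * om Q ^ b := by
        rw [hu, mul_assoc, mul_comm (conj (om Q) ^ b), h1, mul_one]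
      rw [h2, h, one_mul]
    have hQ1 : om Q ^ Q = 1 := (om_prim hQ).pow_eq_one
    have huQ : u ^ Q = 1 := by
      rw [hu, mul_pow, ← pow_mul, ← pow_mul, mul_comm a Q, mul_comm b Q, pow_mul, pow_mul, hQ1,
        one_pow, one_mul, ← map_pow, hQ1, map_one, one_pow]
    have h3 := geom_sum_mul u Q
    rw [huQ, sub_self] at h3
    exact (mul_eq_zero.1 h3).resolve_right (sub_ne_zero.2 hne)

theorem prodsum {r : ℕ} (A : Finset ℕ) (f : Fin r → ℕ → ℝ) (u : ℂ) :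
    ∏ i, ∑ a ∈ A, (f i a : ℂ) * u ^ a =
      ∑ x ∈ Fintype.piFinset (fun _ : Fin r => A), (∏ i, (f i (x i) : ℂ)) * u ^ (∑ i, x i) := by
  rw [Finset.prod_univ_sum]
  apply Finset.sum_congr rfl
  intro x _
  rw [Finset.prod_mul_distrib, Finset.prod_pow_eq_pow_sum]

theorem orth {r : ℕ} (A : Finset ℕ) {Q : ℕ} (hQ : Q ≠ 0)
    (hA : ∀ x ∈ Fintype.piFinset (fun _ : Fin r => A), ∑ i, x i < Q) (f h : Fin r → ℕ → ℝ) :
    ∑ j ∈ range Q, (∏ i, ∑ a ∈ A, (f i a : ℂ) * (om Q ^ j) ^ a) *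
      (∏ i, ∑ b ∈ A, (h i b : ℂ) * (conj (om Q) ^ j) ^ b) =
    ((Q * ∑ p ∈ Sol r A, (∏ i, f i (p.1 i)) * ∏ i, h i (p.2 i) : ℝ) : ℂ) := by
  simp only [prodsum, Finset.sum_mul_sum]
  rw [Finset.sum_comm]
  have e1 : ∀ x ∈ Fintype.piFinset (fun _ : Fin r => A),
      ∑ j ∈ range Q, ∑ y ∈ Fintype.piFinset (fun _ : Fin r => A),
        (∏ i, (f i (x i) : ℂ)) * (om Q ^ j) ^ (∑ i, x i) *
          ((∏ i, (h i (y i) : ℂ)) * (conj (om Q) ^ j) ^ (∑ i, y i)) =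
      ∑ y ∈ Fintype.piFinset (fun _ : Fin r => A),
        if ∑ i, x i = ∑ i, y i then (Q : ℂ) * ((∏ i, (f i (x i) : ℂ)) * ∏ i, (h i (y i) : ℂ)) else 0 := by
    intro x hx
    rw [Finset.sum_comm]
    apply Finset.sum_congr rfl
    intro y hy
    have h1 := orth1 hQ (hA x hx) (hA y hy)
    calc ∑ j ∈ range Q, (∏ i, (f i (x i) : ℂ)) * (om Q ^ j) ^ (∑ i, x i) *
          ((∏ i, (h i (y i) : ℂ)) * (conj (om Q) ^ j) ^ (∑ i, y i))
        = ((∏ i, (f i (x i) : ℂ)) * ∏ i, (h i (y i) : ℂ)) *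
          ∑ j ∈ range Q, (om Q ^ j) ^ (∑ i, x i) * (conj (om Q) ^ j) ^ (∑ i, y i) := by
          rw [Finset.mul_sum]
          apply Finset.sum_congr rfl
          intro j _
          ring
      _ = _ := by
          rw [h1]
          split_ifs
          · ring
          · ring
  rw [Finset.sum_congr rfl e1, ← Finset.sum_product', ← Finset.sum_filter]
  push_cast
  rw [Finset.mul_sum]
  rfl

/-- the trilinear form -/
noncomputable def T1 (r : ℕ) (A : Finset ℕ) (f g : ℕ → ℝ) : ℝ :=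
  ∑ p ∈ Sol (r + 1) A, (f (p.1 0) * ∏ i : Fin r, g (p.1 i.succ)) * ∏ i, g (p.2 i)

/-- the form itself -/
noncomputable def T0 (r : ℕ) (A : Finset ℕ) (f : ℕ → ℝ) : ℝ :=
  ∑ p ∈ Sol (r + 1) A, evA (pt (r + 1)) f p

theorem T1_self (r : ℕ) (A : Finset ℕ) (g : ℕ → ℝ) : T1 r A g g = T0 r A g := by
  unfold T1 T0
  apply Finset.sum_congr rfl
  intro p _
  rw [evA_pt, Fin.prod_univ_succ (fun i => g (p.1 i))]

theorem point_ineq (r : ℕ) (z w : ℂ) :
    2 * (r + 1 : ℝ) * (z * w ^ r * conj w ^ (r + 1)).re ≤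
      (z ^ (r + 1) * conj z ^ (r + 1)).re + (2 * (r + 1 : ℝ) - 1) * (w ^ (r + 1) * conj w ^ (r + 1)).re := by
  have e : ∀ u : ℂ, (u ^ (r + 1) * conj u ^ (r + 1)).re = ‖u‖ ^ (2 * r + 1 + 1) := by
    intro u
    rw [← mul_pow, Complex.mul_conj, ← Complex.ofReal_pow, Complex.ofReal_re,
      Complex.normSq_eq_norm_sq, ← pow_mul]
    congr 1
  rw [e, e]
  have h1 : (z * w ^ r * conj w ^ (r + 1)).re ≤ ‖z‖ * ‖w‖ ^ (2 * r + 1) := by
    refine (Complex.re_le_norm _).trans (le_of_eq ?_)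
    rw [norm_mul, norm_mul, norm_pow, norm_pow, Complex.norm_conj]
    ring
  have h2 := pow_grad (norm_nonneg z) (norm_nonneg w) (2 * r + 1)
  have h3 : 2 * (r + 1 : ℝ) * (z * w ^ r * conj w ^ (r + 1)).re ≤
      2 * (r + 1 : ℝ) * (‖z‖ * ‖w‖ ^ (2 * r + 1)) := mul_le_mul_of_nonneg_left h1 (by positivity)
  push_cast at h2
  have h4 : ‖w‖ ^ (2 * r + 1 + 1) = ‖w‖ ^ (2 * r + 1) * ‖w‖ := pow_succ _ _
  nlinarith

theorem form_ineq (r : ℕ) (A : Finset ℕ) (f g : ℕ → ℝ) :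
    2 * (r + 1 : ℝ) * T1 r A f g ≤ T0 r A f + (2 * (r + 1 : ℝ) - 1) * T0 r A g := by
  obtain ⟨Q, hQ0, hQ⟩ : ∃ Q : ℕ, Q ≠ 0 ∧
      ∀ x ∈ Fintype.piFinset (fun _ : Fin (r + 1) => A), ∑ i, x i < Q := by
    refine ⟨(r + 1) * A.sup id + 1, by omega, fun x hx => ?_⟩
    rw [Fintype.mem_piFinset] at hx
    have h1 : ∑ i, x i ≤ ∑ _i : Fin (r + 1), A.sup id :=
      Finset.sum_le_sum fun i _ => Finset.le_sup (f := id) (hx i)
    rw [Finset.sum_const, Finset.card_univ, Fintype.card_fin, smul_eq_mul] at h1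
    omega
  set F : ℕ → ℂ := fun j => ∑ a ∈ A, (f a : ℂ) * (om Q ^ j) ^ a with hF
  set G : ℕ → ℂ := fun j => ∑ a ∈ A, (g a : ℂ) * (om Q ^ j) ^ a with hG
  have cj : ∀ (u : ℕ → ℝ) (j : ℕ), ∑ a ∈ A, (u a : ℂ) * (conj (om Q) ^ j) ^ a =
      conj (∑ a ∈ A, (u a : ℂ) * (om Q ^ j) ^ a) := by
    intro u j
    rw [map_sum]
    apply Finset.sum_congr rfl
    intro a _
    rw [map_mul, Complex.conj_ofReal, map_pow, map_pow]
  have o1 := orth A hQ0 hQ (Fin.cons f fun _ => g) (fun _ => g)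
  have o2 : ∀ u : ℕ → ℝ, ∑ j ∈ range Q, (∑ a ∈ A, (u a : ℂ) * (om Q ^ j) ^ a) ^ (r + 1) *
      conj (∑ a ∈ A, (u a : ℂ) * (om Q ^ j) ^ a) ^ (r + 1) = ((Q * T0 r A u : ℝ) : ℂ) := by
    intro u
    have h := orth A hQ0 hQ (fun _ => u) (fun _ => u)
    simp only [cj, Finset.prod_const, Finset.card_univ, Fintype.card_fin] at h
    rw [h]
    congr 2
    unfold T0
    apply Finset.sum_congr rfl
    intro p _
    rw [evA_pt]
  have o1' : ∑ j ∈ range Q, (F j * G j ^ r * conj (G j) ^ (r + 1)) = ((Q * T1 r A f g : ℝ) : ℂ) := by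
    have e2 : ∀ j : ℕ, ∏ i : Fin (r + 1), ∑ a ∈ A,
        (((Fin.cons f fun _ => g : Fin (r + 1) → ℕ → ℝ) i a : ℝ) : ℂ) * (om Q ^ j) ^ a = F j * G j ^ r := by
      intro j
      rw [Fin.prod_univ_succ]
      simp only [Fin.cons_zero, Fin.cons_succ, Finset.prod_const, Finset.card_univ, Fintype.card_fin]
      rfl
    simp only [e2, cj, Finset.prod_const, Finset.card_univ, Fintype.card_fin] at o1
    rw [show (∑ j ∈ range Q, (F j * G j ^ r * conj (G j) ^ (r + 1))) =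
      ∑ j ∈ range Q, F j * G j ^ r * (conj (∑ a ∈ A, (g a : ℂ) * (om Q ^ j) ^ a)) ^ (r + 1) from rfl, o1]
    congr 2
    unfold T1
    apply Finset.sum_congr rfl
    intro p _
    rw [Fin.prod_univ_succ]
    simp only [Fin.cons_zero, Fin.cons_succ]
  have h1 : ∑ j ∈ range Q, 2 * (r + 1 : ℝ) * (F j * G j ^ r * conj (G j) ^ (r + 1)).re ≤
      ∑ j ∈ range Q, ((F j ^ (r + 1) * conj (F j) ^ (r + 1)).re +
        (2 * (r + 1 : ℝ) - 1) * (G j ^ (r + 1) * conj (G j) ^ (r + 1)).re) :=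
    Finset.sum_le_sum fun j _ => point_ineq r (F j) (G j)
  rw [← Finset.mul_sum, Finset.sum_add_distrib, ← Finset.mul_sum, ← Complex.re_sum, ← Complex.re_sum,
    ← Complex.re_sum, o1'] at h1
  have o2f := o2 f
  have o2g := o2 g
  rw [show (∑ j ∈ range Q, F j ^ (r + 1) * conj (F j) ^ (r + 1)) = ((Q * T0 r A f : ℝ) : ℂ) from o2f,
    show (∑ j ∈ range Q, G j ^ (r + 1) * conj (G j) ^ (r + 1)) = ((Q * T0 r A g : ℝ) : ℂ) from o2g,
    Complex.ofReal_re, Complex.ofReal_re, Complex.ofReal_re] at h1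
  have hQpos : (0:ℝ) < Q := by
    have : 0 < Q := Nat.pos_of_ne_zero hQ0
    exact_mod_cast this
  have h2 : (Q:ℝ) * (2 * (r + 1 : ℝ) * T1 r A f g) ≤
      Q * (T0 r A f + (2 * (r + 1 : ℝ) - 1) * T0 r A g) := by linarith
  exact le_of_mul_le_mul_left h2 hQpos

/-- **the averaging property** -/
theorem avg_sol (r : ℕ) (A : Finset ℕ) : Avg (Sol (r + 1) A) (pt (r + 1)) := by
  intro I f g hf hg h
  have h1 : ∀ n ∈ I, 2 * (r + 1 : ℝ) * T1 r A (f n) g - (2 * (r + 1 : ℝ) - 1) * T0 r A g ≤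
      T0 r A (f n) := by
    intro n _
    have := form_ineq r A (f n) g
    linarith
  have h2 : (I.card : ℝ) * T1 r A g g ≤ ∑ n ∈ I, T1 r A (f n) g := by
    unfold T1
    rw [Finset.sum_comm, Finset.mul_sum]
    apply Finset.sum_le_sum
    intro p _
    rw [← Finset.sum_mul, ← Finset.sum_mul]
    have h3 : 0 ≤ ∏ i : Fin r, g (p.1 i.succ) := Finset.prod_nonneg fun _ _ => hg _
    have h4 : 0 ≤ ∏ i : Fin (r + 1), g (p.2 i) := Finset.prod_nonneg fun _ _ => hg _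
    have h5 := mul_le_mul_of_nonneg_right (mul_le_mul_of_nonneg_right (h (p.1 0)) h3) h4
    linarith
  rw [T1_self] at h2
  have h6 : ∑ n ∈ I, (2 * (r + 1 : ℝ) * T1 r A (f n) g - (2 * (r + 1 : ℝ) - 1) * T0 r A g) ≤
      ∑ n ∈ I, T0 r A (f n) := Finset.sum_le_sum h1
  rw [Finset.sum_sub_distrib, ← Finset.mul_sum, Finset.sum_const, nsmul_eq_mul] at h6
  have h7 : 2 * (r + 1 : ℝ) * ((I.card : ℝ) * T0 r A g) ≤ 2 * (r + 1 : ℝ) * ∑ n ∈ I, T1 r A (f n) g :=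
    mul_le_mul_of_nonneg_left h2 (by positivity)
  change (I.card : ℝ) * T0 r A g ≤ ∑ n ∈ I, T0 r A (f n)
  linarith

end Pool.Agent.K4H50.SG.Eqs
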