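import Pool.Agent.K4H50.SG.C2
import Pool.Agent.K4H50.SG.C3

set_option autoImplicit false

/-! # Degenerate solutions of `a_1 + … + a_r = b_1 + … + b_r` -/

namespace Pool.Agent.K4H50.SG.Eqs

open Finset Pool.Agent.K4H50.SG.Abs

/-- solutions with prescribed coincidences -/
theorem lin_count {R j : ℕ} (A : Finset ℕ) (c : Fin R ⊕ Fin R → Fin j) (hc : Function.Surjective c) :
    ((Fintype.piFinset fun _ : Fin j => A).filter
      (fun v => ∑ i : Fin R, v (c (Sum.inl i)) = ∑ i : Fin R, v (c (Sum.inr i)))).card ≤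
      A.card ^ (j - 1) + (if j ≤ R then A.card ^ j else 0) := by
  classical
  set m : Fin j → ℕ := fun k => (univ.filter fun i : Fin R => c (Sum.inl i) = k).card with hm
  set n : Fin j → ℕ := fun k => (univ.filter fun i : Fin R => c (Sum.inr i) = k).card with hn
  have sm : ∀ v : Fin j → ℕ, ∑ i : Fin R, v (c (Sum.inl i)) = ∑ k, m k * v k := by
    intro v
    rw [← Finset.sum_fiberwise (s := univ) (g := fun i : Fin R => c (Sum.inl i))]
    apply Finset.sum_congr rfl
    intro k _
    simp only [hm]
    rw [Finset.card_eq_sum_ones, Finset.sum_mul]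
    apply Finset.sum_congr rfl
    intro i hi
    rw [(mem_filter.1 hi).2, one_mul]
  have sn : ∀ v : Fin j → ℕ, ∑ i : Fin R, v (c (Sum.inr i)) = ∑ k, n k * v k := by
    intro v
    rw [← Finset.sum_fiberwise (s := univ) (g := fun i : Fin R => c (Sum.inr i))]
    apply Finset.sum_congr rfl
    intro k _
    simp only [hn]
    rw [Finset.card_eq_sum_ones, Finset.sum_mul]
    apply Finset.sum_congr rfl
    intro i hi
    rw [(mem_filter.1 hi).2, one_mul]
  by_cases hmn : ∀ k, m k = n k
  · have hj : j ≤ R := by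
      have h1 : ∀ k, 1 ≤ m k := by
        intro k
        obtain ⟨e, he⟩ := hc k
        rcases e with i | i
        · exact card_pos.2 ⟨i, mem_filter.2 ⟨mem_univ _, he⟩⟩
        · rw [hmn k]
          exact card_pos.2 ⟨i, mem_filter.2 ⟨mem_univ _, he⟩⟩
      have h2 : ∑ k, m k = R := by
        have := sm (fun _ => 1)
        simp only [mul_one, Finset.sum_const, Finset.card_univ, Fintype.card_fin, smul_eq_mul] at this
        exact this.symm
      calc j = ∑ _k : Fin j, 1 := by simp
        _ ≤ ∑ k, m k := Finset.sum_le_sum fun k _ => h1 k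
        _ = R := h2
    rw [if_pos hj]
    refine (card_filter_le _ _).trans ?_
    rw [Fintype.card_piFinset, prod_const, card_univ, Fintype.card_fin]
    omega
  · push Not at hmn
    obtain ⟨k0, hk0⟩ := hmn
    have hcard : (Fintype.piFinset fun _ : {k : Fin j // k ≠ k0} => A).card = A.card ^ (j - 1) := by
      rw [Fintype.card_piFinset, prod_const, card_univ, Fintype.card_subtype_compl,
        Fintype.card_fin, Fintype.card_subtype_eq]
    refine le_trans ?_ (Nat.le_add_right _ _)
    rw [← hcard]
    apply card_le_card_of_injOn (fun v k => v k.1)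
    · intro v hv
      rw [mem_coe, mem_filter, Fintype.mem_piFinset] at hv
      rw [mem_coe, Fintype.mem_piFinset]
      exact fun k => hv.1 k.1
    · intro v hv w hw hvw
      rw [mem_coe, mem_filter] at hv hw
      have h1 := hv.2
      have h2 := hw.2
      rw [sm, sn] at h1 h2
      have hoff : ∀ k, k ≠ k0 → v k = w k := fun k hk => congrFun hvw ⟨k, hk⟩
      have e1 : ∀ (a : Fin j → ℕ), ∑ k, a k * v k = a k0 * v k0 + ∑ k ∈ univ.erase k0, a k * v k :=
        fun a => (Finset.add_sum_erase univ _ (mem_univ k0)).symm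
      have e2 : ∀ (a : Fin j → ℕ), ∑ k, a k * w k = a k0 * w k0 + ∑ k ∈ univ.erase k0, a k * v k := by
        intro a
        rw [← Finset.add_sum_erase univ _ (mem_univ k0)]
        congr 1
        apply Finset.sum_congr rfl
        intro k hk
        rw [hoff k (ne_of_mem_erase hk)]
      rw [e1, e1] at h1
      rw [e2, e2] at h2
      have h3 : v k0 = w k0 := by
        have h4 : ((m k0 : ℤ) - n k0) * ((v k0 : ℤ) - w k0) = 0 := by
          have h1' : ((m k0 : ℤ) * v k0 + ∑ k ∈ univ.erase k0, (m k : ℤ) * v k) =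
              (n k0 : ℤ) * v k0 + ∑ k ∈ univ.erase k0, (n k : ℤ) * v k := by exact_mod_cast h1
          have h2' : ((m k0 : ℤ) * w k0 + ∑ k ∈ univ.erase k0, (m k : ℤ) * v k) =
              (n k0 : ℤ) * w k0 + ∑ k ∈ univ.erase k0, (n k : ℤ) * v k := by exact_mod_cast h2
          linear_combination h1' - h2'
        rcases mul_eq_zero.1 h4 with h5 | h5
        · exact absurd (by omega : m k0 = n k0) hk0
        · omega
      funext k
      by_cases hk : k = k0
      · rw [hk]; exact h3
      · exact hoff k hk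

theorem count_card {R j : ℕ} (A : Finset ℕ) :
    ((Sol R A).filter (fun X => (DA (pt R) X).card = j)).card ≤
      j ^ (2 * R) * (A.card ^ (j - 1) + (if j ≤ R then A.card ^ j else 0)) := by
  classical
  set V : (Fin R ⊕ Fin R → Fin j) → Finset (Fin j → ℕ) := fun c =>
    (Fintype.piFinset fun _ : Fin j => A).filter
      (fun v => ∑ i : Fin R, v (c (Sum.inl i)) = ∑ i : Fin R, v (c (Sum.inr i))) with hV
  have hsub : (Sol R A).filter (fun X => (DA (pt R) X).card = j) ⊆
      (univ.filter fun c : Fin R ⊕ Fin R → Fin j => Function.Surjective c).biUnion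
        (fun c => (V c).image (fun v => (fun i => v (c (Sum.inl i)), fun i => v (c (Sum.inr i))))) := by
    intro X hX
    rw [mem_filter] at hX
    obtain ⟨hX1, hX2⟩ := hX
    unfold Sol at hX1
    rw [mem_filter, mem_product, Fintype.mem_piFinset, Fintype.mem_piFinset] at hX1
    obtain ⟨⟨ha, hb⟩, hs⟩ := hX1
    set e := (DA (pt R) X).equivFinOfCardEq hX2 with he
    set c : Fin R ⊕ Fin R → Fin j := fun t => e ⟨pt R X t, mem_DA (pt R) X t⟩ with hc
    set v : Fin j → ℕ := fun k => (e.symm k : ℕ) with hv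
    have hvc : ∀ t, v (c t) = pt R X t := by
      intro t
      simp only [hv, hc, Equiv.symm_apply_apply]
    have hA : ∀ t, pt R X t ∈ A := by
      intro t
      rcases t with i | i
      · exact ha i
      · exact hb i
    rw [mem_biUnion]
    refine ⟨c, mem_filter.2 ⟨mem_univ _, ?_⟩, ?_⟩
    · intro k
      have h1 : (e.symm k : ℕ) ∈ DA (pt R) X := (e.symm k).2
      obtain ⟨t, -, ht⟩ := mem_image.1 h1
      refine ⟨t, ?_⟩
      simp only [hc]
      rw [← Equiv.eq_symm_apply]
      exact Subtype.ext ht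
    · rw [mem_image]
      refine ⟨v, ?_, ?_⟩
      · rw [hV]
        beta_reduce
        rw [mem_filter, Fintype.mem_piFinset]
        refine ⟨fun k => ?_, ?_⟩
        · have h1 : (e.symm k : ℕ) ∈ DA (pt R) X := (e.symm k).2
          obtain ⟨t, -, ht⟩ := mem_image.1 h1
          simp only [hv]
          rw [← ht]
          exact hA t
        · simp only [hvc]
          exact hs
      · simp only [hvc]
        rfl
  calc ((Sol R A).filter (fun X => (DA (pt R) X).card = j)).card
      ≤ ∑ c ∈ univ.filter (fun c : Fin R ⊕ Fin R → Fin j => Function.Surjective c), ((V c).image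
        (fun v => (fun i => v (c (Sum.inl i)), fun i => v (c (Sum.inr i))))).card :=
        (card_le_card hsub).trans card_biUnion_le
    _ ≤ ∑ _c ∈ univ.filter (fun c : Fin R ⊕ Fin R → Fin j => Function.Surjective c),
        (A.card ^ (j - 1) + (if j ≤ R then A.card ^ j else 0)) := by
        apply Finset.sum_le_sum
        intro c hc
        exact card_image_le.trans (lin_count A c (mem_filter.1 hc).2)
    _ ≤ j ^ (2 * R) * (A.card ^ (j - 1) + (if j ≤ R then A.card ^ j else 0)) := by
        rw [Finset.sum_const, smul_eq_mul]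
        apply Nat.mul_le_mul_right
        refine (card_filter_le _ _).trans (le_of_eq ?_)
        rw [card_univ, Fintype.card_fun, Fintype.card_fin, Fintype.card_sum, Fintype.card_fin]
        congr 1
        ring

/-- the weighted bound for the degenerate solutions -/
theorem deg_sol {R k : ℕ} (hR : 1 ≤ R) (hk : k + 1 = 2 * R) {L δ : ℝ} (hL : 1 ≤ L) (hδ : 0 < δ)
    (A : Finset ℕ) (h1 : L ^ (1 + δ) * (A.card : ℝ) ^ (2 * R - 2) ≤ (Sol R A).card)
    (h2 : L ^ ((R : ℝ) + δ) * (A.card : ℝ) ^ R ≤ (Sol R A).card) :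
    DegB (Sol R A) (pt R) k L δ (2 * (2 * R : ℝ) ^ (2 * R + 1)) := by
  classical
  intro K F hK hF
  have hL0 : 0 < L := by linarith
  have hS0 : (0:ℝ) ≤ (Sol R A).card := Nat.cast_nonneg _
  rcases (Sol R A).eq_empty_or_nonempty with h0 | hne
  · rw [h0]
    simp
  have hRne : Nonempty (Fin R) := ⟨⟨0, hR⟩⟩
  have ha0 : 0 < A.card := by
    obtain ⟨X, hX⟩ := hne
    unfold Sol at hX
    rw [mem_filter, mem_product, Fintype.mem_piFinset] at hX
    exact card_pos.2 ⟨_, hX.1.1 hRne.some⟩
  set a : ℝ := (A.card : ℝ) with ha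
  have ha0' : 0 < a := by rw [ha]; exact_mod_cast ha0
  -- `L ≤ a`
  have hSle : ((Sol R A).card : ℝ) ≤ a ^ (2 * R - 1) := by
    have h3 : (Sol R A).card ≤ A.card ^ (2 * R - 1) := by
      have hinj : (Sol R A).card ≤ ((Fintype.piFinset fun _ : Fin R => A) ×ˢ
          (Fintype.piFinset fun _ : {i : Fin R // i ≠ hRne.some} => A)).card := by
        apply card_le_card_of_injOn (fun p => (p.1, fun i => p.2 i.1))
        · intro p hp
          unfold Sol at hp
          rw [mem_coe, mem_filter, mem_product, Fintype.mem_piFinset, Fintype.mem_piFinset] at hp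
          rw [mem_coe, mem_product, Fintype.mem_piFinset, Fintype.mem_piFinset]
          exact ⟨hp.1.1, fun i => hp.1.2 i.1⟩
        · rintro ⟨x, y⟩ hp ⟨x', y'⟩ hp' heq
          unfold Sol at hp hp'
          rw [mem_coe, mem_filter] at hp hp'
          simp only [Prod.mk.injEq] at heq
          obtain ⟨e1, e2⟩ := heq
          subst e1
          have e3 : ∀ i, i ≠ hRne.some → y i = y' i := fun i hi => congrFun e2 ⟨i, hi⟩
          have s1 := hp.2
          have s2 := hp'.2
          simp only at s1 s2
          rw [← Finset.add_sum_erase univ y (mem_univ hRne.some)] at s1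
          rw [← Finset.add_sum_erase univ y' (mem_univ hRne.some)] at s2
          have e4 : ∑ i ∈ univ.erase hRne.some, y i = ∑ i ∈ univ.erase hRne.some, y' i :=
            Finset.sum_congr rfl fun i hi => e3 i (ne_of_mem_erase hi)
          have e5 : y hRne.some = y' hRne.some := by omega
          have : y = y' := by
            funext i
            by_cases hi : i = hRne.some
            · rw [hi]; exact e5
            · exact e3 i hi
          rw [this]
      refine hinj.trans (le_of_eq ?_)
      rw [card_product, Fintype.card_piFinset, Fintype.card_piFinset, prod_const, prod_const,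
        card_univ, card_univ, Fintype.card_subtype_compl, Fintype.card_fin, Fintype.card_subtype_eq,
        ← pow_add]
      congr 1
      omega
    rw [ha]
    exact_mod_cast h3
  have haL : L ≤ a := by
    have h3 : L ^ (1 + δ) * a ^ (2 * R - 2) ≤ a * a ^ (2 * R - 2) := by
      refine (h1.trans hSle).trans (le_of_eq ?_)
      rw [← pow_succ']
      congr 1
      omega
    have h4 : L ^ (1 + δ) ≤ a := le_of_mul_le_mul_right h3 (by positivity)
    refine le_trans ?_ h4
    calc L = L ^ (1:ℝ) := (Real.rpow_one L).symm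
      _ ≤ L ^ (1 + δ) := Real.rpow_le_rpow_of_exponent_le hL (by linarith)
  set Z : ℝ := ((Sol R A).card : ℝ) / L ^ (((k + 1 : ℕ) : ℝ) + δ) with hZ
  have hLk : L ^ (((k + 1 : ℕ) : ℝ) + δ) = L ^ (2 * R - 1) * L ^ (1 + δ) := by
    rw [← Real.rpow_natCast L (2 * R - 1), ← Real.rpow_add hL0]
    congr 1
    have : 1 ≤ 2 * R := by omega
    rw [hk]
    push_cast [Nat.cast_sub this]
    ring
  have hLk2 : L ^ (((k + 1 : ℕ) : ℝ) + δ) = L ^ R * L ^ ((R : ℝ) + δ) := by
    rw [← Real.rpow_natCast L R, ← Real.rpow_add hL0]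
    congr 1
    rw [hk]
    push_cast
    ring
  have hq : 1 ≤ a / L := by rw [le_div_iff₀ hL0]; linarith
  have z1 : ∀ j, 1 ≤ j → j ≤ 2 * R - 1 → a ^ (j - 1) / L ^ j ≤ Z := by
    intro j hj1 hj2
    have e1 : a ^ (j - 1) / L ^ j = (a / L) ^ (j - 1) / L := by
      obtain ⟨i, rfl⟩ : ∃ i, j = i + 1 := ⟨j - 1, by omega⟩
      rw [Nat.add_sub_cancel, div_pow, pow_succ]
      field_simp
    have e2 : (a / L) ^ (j - 1) / L ≤ (a / L) ^ (2 * R - 2) / L :=
      div_le_div_of_nonneg_right (pow_le_pow_right₀ hq (by omega)) hL0.le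
    have e3 : (a / L) ^ (2 * R - 2) / L = a ^ (2 * R - 2) / L ^ (2 * R - 1) := by
      have : 2 * R - 1 = (2 * R - 2) + 1 := by omega
      rw [this, div_pow, pow_succ]
      field_simp
    rw [e1]
    refine e2.trans ?_
    rw [e3, hZ, hLk, div_le_div_iff₀ (by positivity) (by positivity)]
    calc a ^ (2 * R - 2) * (L ^ (2 * R - 1) * L ^ (1 + δ)) =
        (L ^ (1 + δ) * a ^ (2 * R - 2)) * L ^ (2 * R - 1) := by ring
      _ ≤ (Sol R A).card * L ^ (2 * R - 1) := mul_le_mul_of_nonneg_right h1 (by positivity)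
  have z2 : ∀ j, j ≤ R → a ^ j / L ^ j ≤ Z := by
    intro j hj
    have e2 : (a / L) ^ j ≤ (a / L) ^ R := pow_le_pow_right₀ hq hj
    rw [← div_pow]
    refine e2.trans ?_
    rw [div_pow, hZ, hLk2, div_le_div_iff₀ (by positivity) (by positivity)]
    calc a ^ R * (L ^ R * L ^ ((R : ℝ) + δ)) = (L ^ ((R : ℝ) + δ) * a ^ R) * L ^ R := by ring
      _ ≤ (Sol R A).card * L ^ R := mul_le_mul_of_nonneg_right h2 (by positivity)
  have hZ0 : 0 ≤ Z := by rw [hZ]; positivity
  -- grouping
  have hmaps : ∀ X ∈ (Sol R A).filter (fun X => (DA (pt R) X).card ≠ k + 1),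
      (DA (pt R) X).card ∈ Icc 1 (2 * R - 1) := by
    intro X hX
    rw [mem_filter] at hX
    rw [mem_Icc]
    have h3 : 0 < (DA (pt R) X).card := card_pos.2 ⟨_, mem_DA (pt R) X (Sum.inl hRne.some)⟩
    have h4 : (DA (pt R) X).card ≤ 2 * R := by
      refine card_image_le.trans (le_of_eq ?_)
      rw [card_univ, Fintype.card_sum, Fintype.card_fin]
      ring
    have h5 := hX.2
    omega
  rw [← sum_fiberwise_of_maps_to hmaps]
  have hpt : ∀ j ∈ Icc 1 (2 * R - 1), ∑ X ∈ ((Sol R A).filter (fun X => (DA (pt R) X).card ≠ k + 1)).filter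
      (fun X => (DA (pt R) X).card = j), F (DA (pt R) X) ≤ 2 * (2 * R : ℝ) ^ (2 * R) * (K * Z) := by
    intro j hj
    rw [mem_Icc] at hj
    calc ∑ X ∈ ((Sol R A).filter (fun X => (DA (pt R) X).card ≠ k + 1)).filter
          (fun X => (DA (pt R) X).card = j), F (DA (pt R) X)
        ≤ ∑ X ∈ ((Sol R A).filter (fun X => (DA (pt R) X).card ≠ k + 1)).filter
          (fun X => (DA (pt R) X).card = j), K / L ^ j := by
          apply Finset.sum_le_sum
          intro X hX
          rw [mem_filter, mem_filter] at hX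
          have := hF X hX.1.1 hX.1.2
          rwa [hX.2] at this
      _ = ((((Sol R A).filter (fun X => (DA (pt R) X).card ≠ k + 1)).filter
          (fun X => (DA (pt R) X).card = j)).card : ℝ) * (K / L ^ j) := by
          rw [sum_const, nsmul_eq_mul]
      _ ≤ ((2 * R : ℝ) ^ (2 * R) * (a ^ (j - 1) + (if j ≤ R then a ^ j else 0))) * (K / L ^ j) := by
          apply mul_le_mul_of_nonneg_right _ (by positivity)
          have h3 : (((Sol R A).filter (fun X => (DA (pt R) X).card ≠ k + 1)).filter
              (fun X => (DA (pt R) X).card = j)).card ≤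
              j ^ (2 * R) * (A.card ^ (j - 1) + (if j ≤ R then A.card ^ j else 0)) :=
            (card_le_card (filter_subset_filter _ (filter_subset _ _))).trans (count_card A)
          have h4 : ((((Sol R A).filter (fun X => (DA (pt R) X).card ≠ k + 1)).filter
              (fun X => (DA (pt R) X).card = j)).card : ℝ) ≤
              (j : ℝ) ^ (2 * R) * (a ^ (j - 1) + (if j ≤ R then a ^ j else 0)) := by
            rw [ha]
            exact_mod_cast h3
          refine h4.trans ?_
          apply mul_le_mul_of_nonneg_right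
          · apply pow_le_pow_left₀ (Nat.cast_nonneg _)
            have : j ≤ 2 * R := by omega
            exact_mod_cast this
          · split_ifs <;> positivity
      _ = (2 * R : ℝ) ^ (2 * R) * (K * (a ^ (j - 1) / L ^ j + (if j ≤ R then a ^ j / L ^ j else 0))) := by
          split_ifs <;> ring
      _ ≤ (2 * R : ℝ) ^ (2 * R) * (K * (Z + Z)) := by
          apply mul_le_mul_of_nonneg_left _ (by positivity)
          apply mul_le_mul_of_nonneg_left _ hK
          apply add_le_add (z1 j hj.1 hj.2)
          split_ifs with h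
          · exact z2 j h
          · exact hZ0
      _ = _ := by ring
  refine (Finset.sum_le_sum hpt).trans ?_
  rw [Finset.sum_const, nsmul_eq_mul, Nat.card_Icc]
  have h5 : ((2 * R - 1 + 1 - 1 : ℕ) : ℝ) ≤ 2 * R := by
    have : 2 * R - 1 + 1 - 1 ≤ 2 * R := by omega
    exact_mod_cast this
  calc ((2 * R - 1 + 1 - 1 : ℕ) : ℝ) * (2 * (2 * R : ℝ) ^ (2 * R) * (K * Z))
      ≤ (2 * R : ℝ) * (2 * (2 * R : ℝ) ^ (2 * R) * (K * Z)) :=
        mul_le_mul_of_nonneg_right h5 (by positivity)
    _ = 2 * (2 * R : ℝ) ^ (2 * R + 1) * (K * Z) := by ring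

end Pool.Agent.K4H50.SG.Eqs
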